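import Mathlib

/-! Series and infinite products of holomorphic functions on normed spaces; divided differences. -/

set_option autoImplicit false

namespace Pool.Agent.X190.Hinf

open Filter Topology Metric Set

section series

variable {E : Type*} [NormedAddCommGroup E] [NormedSpace ℂ E]

/-- A series of holomorphic functions with a summable bound is holomorphic. -/
theorem diffOn_tsum {f : ℕ → E → ℂ} {U : Set E} (hU : IsOpen U)
    (hf : ∀ n, DifferentiableOn ℂ (f n) U) {u : ℕ → ℝ} (hu : Summable u)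
    (hb : ∀ n, ∀ x ∈ U, ‖f n x‖ ≤ u n) :
    DifferentiableOn ℂ (fun x => ∑' n, f n x) U := by
  let _ : NormedSpace ℝ E := NormedSpace.restrictScalars ℝ ℂ E
  intro x hx
  obtain ⟨r, hr, hball⟩ := Metric.isOpen_iff.1 hU x hx
  have hr2 : 0 < r / 2 := by positivity
  have hsub : ∀ y ∈ ball x (r / 2), ball y (r / 2) ⊆ U := by
    intro y hy z hz
    apply hball
    rw [mem_ball] at *
    calc dist z x ≤ dist z y + dist y x := dist_triangle _ _ _
      _ < r / 2 + r / 2 := add_lt_add hz hy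
      _ = r := by ring
  have hsub' : ball x (r / 2) ⊆ U := fun y hy =>
    hball (ball_subset_ball (by linarith) hy)
  have h1 : ∀ n, ∀ y ∈ ball x (r / 2), HasFDerivAt (f n) (fderiv ℂ (f n) y) y := by
    intro n y hy
    exact ((hf n).differentiableAt (hU.mem_nhds (hsub' hy))).hasFDerivAt
  have h2 : ∀ n, ∀ y ∈ ball x (r / 2), ‖fderiv ℂ (f n) y‖ ≤ 2 * u n / (r / 2) := by
    intro n y hy
    refine Complex.norm_fderiv_le_div_of_mapsTo_ball ((hf n).mono (hsub y hy)) ?_ hr2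
    intro z hz
    rw [mem_closedBall, dist_eq_norm]
    calc ‖f n z - f n y‖ ≤ ‖f n z‖ + ‖f n y‖ := norm_sub_le _ _
      _ ≤ u n + u n := add_le_add (hb n z (hsub y hy hz)) (hb n y (hsub' hy))
      _ = 2 * u n := by ring
  have h3 : Summable fun n => 2 * u n / (r / 2) := (hu.mul_left 2).div_const _
  have hx0 : x ∈ ball x (r / 2) := mem_ball_self hr2
  have h4 : Summable fun n => f n x := Summable.of_norm_bounded hu fun n => hb n x hx
  have h5 := hasFDerivAt_tsum_of_isPreconnected h3 isOpen_ball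
    (convex_ball x (r / 2)).isPreconnected h1 h2 hx0 h4 hx0
  exact h5.differentiableAt.differentiableWithinAt

/-- Local version. -/
theorem diffOn_tsum_loc {f : ℕ → E → ℂ} {U : Set E} (hU : IsOpen U)
    (hf : ∀ n, DifferentiableOn ℂ (f n) U)
    (hb : ∀ x ∈ U, ∃ V : Set E, IsOpen V ∧ x ∈ V ∧ ∃ u : ℕ → ℝ, Summable u ∧
      ∀ n, ∀ y ∈ U ∩ V, ‖f n y‖ ≤ u n) :
    DifferentiableOn ℂ (fun x => ∑' n, f n x) U := by
  intro x hx
  obtain ⟨V, hV, hxV, u, hu, hbd⟩ := hb x hx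
  have h1 := diffOn_tsum (hU.inter hV) (fun n => (hf n).mono inter_subset_left) hu hbd
  exact (h1.differentiableAt ((hU.inter hV).mem_nhds ⟨hx, hxV⟩)).differentiableWithinAt

end series

section product

/-- partial products -/
noncomputable def pp (b : ℕ → ℂ) (n : ℕ) : ℂ := ∏ m ∈ Finset.range n, b m

/-- infinite product, as a telescoping series -/
noncomputable def ip (b : ℕ → ℂ) : ℂ := 1 + ∑' j, pp b j * (b j - 1)

theorem pp_zero (b : ℕ → ℂ) : pp b 0 = 1 := by simp [pp]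

theorem pp_succ (b : ℕ → ℂ) (n : ℕ) : pp b (n + 1) = pp b n * b n := by
  simp [pp, Finset.prod_range_succ]

theorem norm_pp_le {b : ℕ → ℂ} (hb : ∀ m, ‖b m‖ ≤ 1) (n : ℕ) : ‖pp b n‖ ≤ 1 := by
  unfold pp
  rw [norm_prod]
  exact Finset.prod_le_one (fun _ _ => norm_nonneg _) fun m _ => hb m

theorem pp_eq (b : ℕ → ℂ) (n : ℕ) : pp b n = 1 + ∑ j ∈ Finset.range n, pp b j * (b j - 1) := by
  induction n with
  | zero => simp [pp]
  | succ n ih =>
    rw [Finset.sum_range_succ, ← add_assoc, ← ih, pp_succ]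
    ring

theorem summable_terms {b : ℕ → ℂ} (hb : ∀ m, ‖b m‖ ≤ 1) (hs : Summable fun m => ‖b m - 1‖) :
    Summable fun j => pp b j * (b j - 1) := by
  refine Summable.of_norm_bounded hs fun j => ?_
  rw [norm_mul]
  calc ‖pp b j‖ * ‖b j - 1‖ ≤ 1 * ‖b j - 1‖ := by gcongr; exact norm_pp_le hb j
    _ = _ := one_mul _

theorem tendsto_pp {b : ℕ → ℂ} (hb : ∀ m, ‖b m‖ ≤ 1) (hs : Summable fun m => ‖b m - 1‖) :
    Tendsto (pp b) atTop (𝓝 (ip b)) := by
  have h1 := (summable_terms hb hs).hasSum.tendsto_sum_nat.const_add 1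
  refine h1.congr fun n => ?_
  rw [pp_eq b n]

theorem norm_ip_le {b : ℕ → ℂ} (hb : ∀ m, ‖b m‖ ≤ 1) (hs : Summable fun m => ‖b m - 1‖) :
    ‖ip b‖ ≤ 1 :=
  le_of_tendsto' (tendsto_pp hb hs).norm (norm_pp_le hb)

theorem pp_update (b : ℕ → ℂ) (m : ℕ) {n : ℕ} (h : m < n) :
    pp b n = b m * pp (Function.update b m 1) n := by
  induction n, h using Nat.le_induction with
  | base =>
    rw [pp_succ, pp_succ, Function.update_self, mul_one, mul_comm]
    congr 1
    unfold pp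
    refine Finset.prod_congr rfl fun j hj => ?_
    rw [Function.update_of_ne]
    exact (Finset.mem_range.1 hj).ne
  | succ n hn ih =>
    rw [pp_succ, pp_succ, ih, Function.update_of_ne (Nat.succ_le_iff.1 hn).ne', mul_assoc]

theorem update_norm {b : ℕ → ℂ} (hb : ∀ m, ‖b m‖ ≤ 1) (m : ℕ) (j : ℕ) :
    ‖Function.update b m 1 j‖ ≤ 1 := by
  by_cases h : j = m
  · subst h; simp
  · rw [Function.update_of_ne h]; exact hb j

theorem update_summable {b : ℕ → ℂ} (hs : Summable fun m => ‖b m - 1‖) (m : ℕ) :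
    Summable fun j => ‖Function.update b m 1 j - 1‖ := by
  refine Summable.of_nonneg_of_le (fun _ => norm_nonneg _) (fun j => ?_) hs
  by_cases h : j = m
  · subst h; simp
  · rw [Function.update_of_ne h]

/-- factorisation -/
theorem ip_update {b : ℕ → ℂ} (hb : ∀ m, ‖b m‖ ≤ 1) (hs : Summable fun m => ‖b m - 1‖) (m : ℕ) :
    ip b = b m * ip (Function.update b m 1) := by
  have h1 := tendsto_pp hb hs
  have h2 := (tendsto_pp (update_norm hb m) (update_summable hs m)).const_mul (b m)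
  refine tendsto_nhds_unique h1 (h2.congr' ?_)
  filter_upwards [eventually_gt_atTop m] with n hn
  rw [pp_update b m hn]

/-- lower bound -/
theorem le_norm_pp {b : ℕ → ℂ} (hb : ∀ m, ‖b m‖ ≤ 1) {v : ℕ → ℝ}
    (hv : ∀ m, 1 - v m ≤ ‖b m‖) (hv0 : ∀ m, 0 ≤ v m) (n : ℕ) :
    1 - ∑ j ∈ Finset.range n, v j ≤ ‖pp b n‖ := by
  induction n with
  | zero => simp [pp]
  | succ n ih =>
    rw [pp_succ, norm_mul, Finset.sum_range_succ]
    have h1 := norm_pp_le hb n
    have h2 := norm_nonneg (pp b n)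
    have h3 := hv n
    have h4 := hv0 n
    nlinarith [norm_nonneg (b n), hb n]

theorem le_norm_ip {b : ℕ → ℂ} (hb : ∀ m, ‖b m‖ ≤ 1) (hs : Summable fun m => ‖b m - 1‖)
    {v : ℕ → ℝ} (hv : ∀ m, 1 - v m ≤ ‖b m‖) (hv0 : ∀ m, 0 ≤ v m) {V : ℝ}
    (hV : ∀ n, ∑ j ∈ Finset.range n, v j ≤ V) : 1 - V ≤ ‖ip b‖ := by
  refine ge_of_tendsto' (tendsto_pp hb hs).norm fun n => ?_
  have := le_norm_pp hb hv hv0 n
  have := hV n
  linarith

variable {E : Type*} [NormedAddCommGroup E] [NormedSpace ℂ E]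

theorem diffOn_pp {B : ℕ → E → ℂ} {U : Set E} (hB : ∀ m, DifferentiableOn ℂ (B m) U) (n : ℕ) :
    DifferentiableOn ℂ (fun z => pp (fun m => B m z) n) U := by
  induction n with
  | zero =>
    simp only [pp_zero]
    exact differentiableOn_const 1
  | succ n ih =>
    simp only [pp_succ]
    exact ih.mul (hB n)

theorem diffOn_ip {B : ℕ → E → ℂ} {U : Set E} (hU : IsOpen U)
    (hB : ∀ m, DifferentiableOn ℂ (B m) U) (hb : ∀ m, ∀ z ∈ U, ‖B m z‖ ≤ 1)
    (hloc : ∀ x ∈ U, ∃ V : Set E, IsOpen V ∧ x ∈ V ∧ ∃ u : ℕ → ℝ, Summable u ∧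
      ∀ n, ∀ y ∈ U ∩ V, ‖B n y - 1‖ ≤ u n) :
    DifferentiableOn ℂ (fun z => ip fun m => B m z) U := by
  unfold ip
  refine DifferentiableOn.const_add _ ?_
  refine diffOn_tsum_loc hU (fun n => (diffOn_pp hB n).mul ((hB n).sub_const 1)) ?_
  intro x hx
  obtain ⟨V, hV, hxV, u, hu, h⟩ := hloc x hx
  refine ⟨V, hV, hxV, u, hu, fun n y hy => ?_⟩
  rw [norm_mul]
  calc ‖pp (fun m => B m y) n‖ * ‖B n y - 1‖ ≤ 1 * u n := by
        gcongr
        · exact norm_pp_le (fun m => hb m y hy.1) n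
        · exact h n y hy
    _ = u n := one_mul _

end product

section schwarz

/-- Lipschitz bound -/
theorem lip {E : Type*} [NormedAddCommGroup E] [NormedSpace ℂ E] {H : E → ℂ} {R M η : ℝ}
    (hd : DifferentiableOn ℂ H (ball 0 R)) (hM : ∀ z ∈ ball (0 : E) R, ‖H z‖ ≤ M) (hη : 0 < η)
    {z v : E} (hz : ‖z‖ < R - 2 * η) (hv : ‖v‖ ≤ η) : ‖H (z + v) - H z‖ ≤ M / η * ‖v‖ := by
  have hsub : ball z (2 * η) ⊆ ball 0 R := by
    intro w hw
    rw [mem_ball_zero_iff]
    rw [mem_ball, dist_eq_norm] at hw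
    calc ‖w‖ = ‖(w - z) + z‖ := by rw [sub_add_cancel]
      _ ≤ ‖w - z‖ + ‖z‖ := norm_add_le _ _
      _ < 2 * η + (R - 2 * η) := add_lt_add hw hz
      _ = R := by ring
  have hzmem : z ∈ ball (0 : E) R := hsub (mem_ball_self (by positivity))
  have h1 : MapsTo H (ball z (2 * η)) (closedBall (H z) (2 * M)) := by
    intro w hw
    rw [mem_closedBall, dist_eq_norm]
    calc ‖H w - H z‖ ≤ ‖H w‖ + ‖H z‖ := norm_sub_le _ _
      _ ≤ M + M := add_le_add (hM w (hsub hw)) (hM z hzmem)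
      _ = 2 * M := by ring
  have h2 : z + v ∈ ball z (2 * η) := by
    rw [mem_ball, dist_eq_norm, add_sub_cancel_left]
    linarith
  have h3 := Complex.dist_le_div_mul_dist_of_mapsTo_ball (hd.mono hsub) h1 h2
  rw [dist_eq_norm, dist_eq_norm, add_sub_cancel_left] at h3
  have h4 : 2 * M / (2 * η) = M / η := by
    rw [mul_div_mul_left _ _ two_ne_zero]
  rwa [h4] at h3

/-- grid points -/
def gp (ε : ℝ) (i j : ℕ) : ℂ × ℂ := ((i : ℂ) * ε, (j : ℂ) * ε)

theorem gp_succ_left (ε : ℝ) (i j : ℕ) : gp ε i j + ((ε : ℂ), (0 : ℂ)) = gp ε (i + 1) j := by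
  unfold gp
  ext <;> simp [add_mul]

theorem gp_succ_right (ε : ℝ) (i j : ℕ) : gp ε i j + ((0 : ℂ), (ε : ℂ)) = gp ε i (j + 1) := by
  unfold gp
  ext <;> simp [add_mul]

theorem norm_left {ε : ℝ} (hε : 0 < ε) : ‖((ε : ℂ), (0 : ℂ))‖ = ε := by
  rw [Prod.norm_def]
  simp [abs_of_pos hε, hε.le]

theorem norm_right {ε : ℝ} (hε : 0 < ε) : ‖((0 : ℂ), (ε : ℂ))‖ = ε := by
  rw [Prod.norm_def]
  simp [abs_of_pos hε, hε.le]

/-- A bounded holomorphic function on a bidisc which vanishes on a triangular grid of mesh `ε` is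
of order `ε ^ m` on the next antidiagonal. -/
theorem grid {m : ℕ} : ∀ {R M η ε : ℝ} {H : ℂ × ℂ → ℂ}, DifferentiableOn ℂ H (ball 0 R) →
    (∀ z ∈ ball (0 : ℂ × ℂ) R, ‖H z‖ ≤ M) → 0 < η → 0 < ε → ε ≤ η → 2 * m * η < R →
    (∀ i j : ℕ, i + j < m → H (gp ε i j) = 0) → ∀ l k : ℕ, l + k = m →
    ‖H (gp ε l k)‖ ≤ M * (ε / η) ^ m := by
  induction m with
  | zero =>
    intro R M η ε H hd hM hη hε hεη hR hz l k hlk
    obtain ⟨rfl, rfl⟩ : l = 0 ∧ k = 0 := by omega
    simp only [pow_zero, mul_one]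
    refine hM _ ?_
    rw [mem_ball_zero_iff]
    have : gp ε 0 0 = 0 := by
      unfold gp; ext <;> simp
    rw [this, norm_zero]
    simpa using hR
  | succ m ih =>
    intro R M η ε H hd hM hη hε hεη hR hz l k hlk
    push_cast at hR
    have hRη : 2 * (m : ℝ) * η < R - 2 * η := by linarith
    have hM0 : 0 ≤ M := (norm_nonneg _).trans (hM 0 (mem_ball_self (by
      have : 0 ≤ 2 * (m : ℝ) * η := by positivity
      linarith)))
    -- general step
    have step : ∀ v : ℂ × ℂ, ‖v‖ = ε → (∀ i j : ℕ, i + j < m →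
        H (gp ε i j + v) = 0) → ∀ l k : ℕ, l + k = m →
        ‖H (gp ε l k + v)‖ ≤ M * (ε / η) ^ (m + 1) := by
      intro v hv hz' l k hlk
      have hε' : (ε : ℂ) ≠ 0 := by exact_mod_cast hε.ne'
      have hin : ∀ z ∈ ball (0 : ℂ × ℂ) (R - 2 * η), z + v ∈ ball (0 : ℂ × ℂ) R := by
        intro z hz1
        rw [mem_ball_zero_iff] at *
        calc ‖z + v‖ ≤ ‖z‖ + ‖v‖ := norm_add_le _ _
          _ < (R - 2 * η) + 2 * η := by
              refine add_lt_add hz1 ?_
              rw [hv]; linarith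
          _ = R := by ring
      have hnorm : ∀ w : ℂ, ‖(ε : ℂ)⁻¹ * w‖ = ‖w‖ / ε := by
        intro w
        rw [norm_mul, norm_inv, Complex.norm_real, Real.norm_of_nonneg hε.le, inv_mul_eq_div]
      have h1 : DifferentiableOn ℂ (fun z => (ε : ℂ)⁻¹ * (H (z + v) - H z))
          (ball 0 (R - 2 * η)) := by
        refine DifferentiableOn.const_mul (DifferentiableOn.sub ?_ ?_) _
        · exact hd.comp (f := fun z => z + v) (by fun_prop) hin
        · exact hd.mono (ball_subset_ball (by linarith))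
      have h2 : ∀ z ∈ ball (0 : ℂ × ℂ) (R - 2 * η), ‖(ε : ℂ)⁻¹ * (H (z + v) - H z)‖ ≤ M / η := by
        intro z hz1
        rw [mem_ball_zero_iff] at hz1
        have h3 := lip hd hM hη hz1 (v := v) (by rw [hv]; exact hεη)
        rw [hnorm, div_le_iff₀ hε]
        rwa [hv] at h3
      have h3 := ih h1 h2 hη hε hεη hRη (by
        intro i j hij
        rw [hz' i j hij, hz i j (by omega), sub_zero, mul_zero]) l k hlk
      rw [hz l k (by omega), sub_zero, hnorm, div_le_iff₀ hε] at h3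
      refine h3.trans (le_of_eq ?_)
      rw [pow_succ]
      field_simp
    rcases Nat.eq_zero_or_pos l with rfl | hl
    · obtain ⟨k', rfl⟩ : ∃ k', k = k' + 1 := ⟨k - 1, by omega⟩
      have h := step ((0 : ℂ), (ε : ℂ)) (norm_right hε) (by
        intro i j hij
        rw [gp_succ_right]
        exact hz i (j + 1) (by omega)) 0 k' (by omega)
      rwa [gp_succ_right] at h
    · obtain ⟨l', rfl⟩ : ∃ l', l = l' + 1 := ⟨l - 1, by omega⟩
      have h := step ((ε : ℂ), (0 : ℂ)) (norm_left hε) (by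
        intro i j hij
        rw [gp_succ_left]
        exact hz (i + 1) j (by omega)) l' k (by omega)
      rwa [gp_succ_left] at h

end schwarz

end Pool.Agent.X190.Hinf
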