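import Pool.Agent.X190.Hinf.Poly

/-! Finite Blaschke products along the real axis. -/

set_option autoImplicit false

namespace Pool.Agent.X190.Hinf

open Filter Topology Metric Set

/-- Blaschke factor -/
noncomputable def bl (α : ℝ) (w : ℂ) : ℂ := (α - w) / (1 - α * w)

theorem den_ge {α : ℝ} (h0 : 0 ≤ α) (h1 : α ≤ 1) {w : ℂ} (_hw : ‖w‖ < 1) :
    1 - ‖w‖ ≤ ‖1 - α * w‖ := by
  have h2 : ‖(α : ℂ) * w‖ ≤ ‖w‖ := by
    rw [norm_mul, Complex.norm_real, Real.norm_of_nonneg h0]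
    exact mul_le_of_le_one_left (norm_nonneg _) h1
  have h3 := norm_sub_norm_le (1 : ℂ) (α * w)
  rw [norm_one] at h3
  linarith

theorem den_ge' {α : ℝ} (h0 : 0 ≤ α) {w : ℂ} (hw : ‖w‖ < 1) :
    1 - α ≤ ‖1 - α * w‖ := by
  have h2 : ‖(α : ℂ) * w‖ ≤ α := by
    rw [norm_mul, Complex.norm_real, Real.norm_of_nonneg h0]
    exact mul_le_of_le_one_right h0 hw.le
  have h3 := norm_sub_norm_le (1 : ℂ) (α * w)
  rw [norm_one] at h3
  linarith

theorem den_ne {α : ℝ} (h0 : 0 ≤ α) (h1 : α ≤ 1) {w : ℂ} (hw : ‖w‖ < 1) : 1 - α * w ≠ 0 := by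
  have h := den_ge h0 h1 hw
  intro h2
  rw [h2, norm_zero] at h
  linarith

theorem bl_norm_le {α : ℝ} (h0 : 0 ≤ α) (h1 : α ≤ 1) {w : ℂ} (hw : ‖w‖ < 1) : ‖bl α w‖ ≤ 1 := by
  unfold bl
  rw [norm_div, div_le_one (norm_pos_iff.2 (den_ne h0 h1 hw))]
  rw [← abs_norm, ← abs_norm (1 - α * w), ← sq_le_sq, Complex.sq_norm, Complex.sq_norm]
  have h2 : ‖w‖ ^ 2 < 1 := by
    have := norm_nonneg w
    nlinarith
  rw [Complex.sq_norm] at h2
  rw [Complex.normSq_apply] at h2 ⊢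
  rw [Complex.normSq_apply]
  simp only [Complex.sub_re, Complex.sub_im, Complex.ofReal_re, Complex.ofReal_im,
    Complex.one_re, Complex.one_im, Complex.mul_re, Complex.mul_im, zero_mul, sub_zero, add_zero]
  nlinarith [mul_nonneg (by nlinarith : 0 ≤ 1 - α ^ 2)
    (by linarith : 0 ≤ 1 - (w.re * w.re + w.im * w.im))]

theorem bl_sub_one {α : ℝ} (h0 : 0 ≤ α) (h1 : α ≤ 1) {w : ℂ} (hw : ‖w‖ < 1) :
    ‖bl α w - 1‖ ≤ 2 * (1 - α) / (1 - ‖w‖) := by
  have hden := den_ne h0 h1 hw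
  have h2 : bl α w - 1 = -(((1 - α : ℝ) : ℂ) * (1 + w)) / (1 - α * w) := by
    unfold bl
    rw [div_sub_one hden]
    congr 1
    push_cast
    ring
  have h3 : ‖(1 : ℂ) + w‖ ≤ 2 := by
    have := norm_add_le (1 : ℂ) w
    rw [norm_one] at this
    linarith
  have h4 : 0 < 1 - ‖w‖ := by linarith
  rw [h2, norm_div, norm_neg, norm_mul, Complex.norm_real,
    Real.norm_of_nonneg (by linarith : 0 ≤ 1 - α)]
  rw [div_le_div_iff₀ (norm_pos_iff.2 hden) h4]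
  have h5 := den_ge h0 h1 hw
  calc (1 - α) * ‖1 + w‖ * (1 - ‖w‖) ≤ (1 - α) * 2 * ‖1 - α * w‖ := by
        gcongr
    _ = 2 * (1 - α) * ‖1 - α * w‖ := by ring

theorem bl_real {α t : ℝ} : bl α (t : ℂ) = (((α - t) / (1 - α * t) : ℝ) : ℂ) := by
  unfold bl
  push_cast
  rfl

theorem bl_ge1 {α t : ℝ} (h0 : 0 ≤ α) (h1 : α < 1) (t0 : 0 ≤ t) (t1 : t < 1) :
    1 - 2 * (1 - α) / (1 - t) ≤ ‖bl α (t : ℂ)‖ := by
  rw [bl_real, Complex.norm_real]
  refine le_trans ?_ (Real.le_norm_self _)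
  have hαt : 0 < 1 - α * t := by nlinarith
  have h2 : 0 < 1 - t := by linarith
  rw [sub_le_comm]
  have h3 : 1 - (α - t) / (1 - α * t) = (1 - α) * (1 + t) / (1 - α * t) := by
    rw [eq_div_iff hαt.ne', sub_mul, div_mul_cancel₀ _ hαt.ne']
    ring
  rw [h3, div_le_div_iff₀ hαt h2]
  have h4 : 1 - t ≤ 1 - α * t := by nlinarith
  have h5 : 0 ≤ 1 - α := by linarith
  calc (1 - α) * (1 + t) * (1 - t) ≤ (1 - α) * 2 * (1 - α * t) := by
        gcongr
        linarith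
    _ = 2 * (1 - α) * (1 - α * t) := by ring

theorem bl_ge2 {α t : ℝ} (h0 : 0 ≤ α) (h1 : α < 1) (t0 : 0 ≤ t) (t1 : t < 1) :
    1 - 2 * (1 - t) / (1 - α) ≤ ‖bl α (t : ℂ)‖ := by
  have h := bl_ge1 t0 t1 h0 h1
  have h2 : ‖bl t (α : ℂ)‖ = ‖bl α (t : ℂ)‖ := by
    rw [bl_real, bl_real, Complex.norm_real, Complex.norm_real, Real.norm_eq_abs,
      Real.norm_eq_abs, abs_div, abs_div, abs_sub_comm, mul_comm t α]
  rwa [h2] at h

/-- block -/
noncomputable def blk (α : ℕ → ℝ) (n : ℕ) (w : ℂ) : ℂ := ∏ i ∈ Finset.range n, bl (α i) w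

theorem blk_norm_le {α : ℕ → ℝ} {n : ℕ} (h : ∀ i < n, 0 ≤ α i ∧ α i ≤ 1) {w : ℂ}
    (hw : ‖w‖ < 1) : ‖blk α n w‖ ≤ 1 := by
  unfold blk
  rw [norm_prod]
  refine Finset.prod_le_one (fun _ _ => norm_nonneg _) fun i hi => ?_
  obtain ⟨h1, h2⟩ := h i (Finset.mem_range.1 hi)
  exact bl_norm_le h1 h2 hw

theorem blk_sub_one {α : ℕ → ℝ} {n : ℕ} {δ : ℝ} (h : ∀ i < n, 0 ≤ α i ∧ α i ≤ 1 ∧ 1 - α i ≤ δ)
    {w : ℂ} (hw : ‖w‖ < 1) : ‖blk α n w - 1‖ ≤ n * (2 * δ / (1 - ‖w‖)) := by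
  induction n with
  | zero => simp [blk]
  | succ n ih =>
    have hn : ∀ i < n, 0 ≤ α i ∧ α i ≤ 1 ∧ 1 - α i ≤ δ := fun i hi => h i (by omega)
    have ih' := ih hn
    obtain ⟨h1, h2, h3⟩ := h n (by omega)
    have h4 := bl_sub_one h1 h2 hw
    have h5 := bl_norm_le h1 h2 hw
    have h6 : 0 < 1 - ‖w‖ := by linarith
    have h7 : 2 * (1 - α n) / (1 - ‖w‖) ≤ 2 * δ / (1 - ‖w‖) := by gcongr
    have h8 : blk α (n + 1) w - 1 = (blk α n w - 1) * bl (α n) w + (bl (α n) w - 1) := by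
      unfold blk
      rw [Finset.prod_range_succ]
      ring
    rw [h8]
    calc _ ≤ ‖(blk α n w - 1) * bl (α n) w‖ + ‖bl (α n) w - 1‖ := norm_add_le _ _
      _ ≤ ‖blk α n w - 1‖ * 1 + 2 * δ / (1 - ‖w‖) := by
          rw [norm_mul]
          gcongr
          exact h4.trans h7
      _ ≤ n * (2 * δ / (1 - ‖w‖)) + 2 * δ / (1 - ‖w‖) := by linarith
      _ = _ := by push_cast; ring

theorem blk_ge {α : ℕ → ℝ} {n : ℕ} {v : ℝ} {w : ℂ} (_hv : 0 ≤ v)
    (h : ∀ i < n, ‖bl (α i) w‖ ≤ 1 ∧ 1 - v ≤ ‖bl (α i) w‖) : 1 - n * v ≤ ‖blk α n w‖ := by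
  induction n with
  | zero => simp [blk]
  | succ n ih =>
    have ih' := ih fun i hi => h i (by omega)
    obtain ⟨h1, h2⟩ := h n (by omega)
    have h3 : ‖blk α n w‖ ≤ 1 := by
      unfold blk
      rw [norm_prod]
      exact Finset.prod_le_one (fun _ _ => norm_nonneg _) fun i hi =>
        (h i (by have := Finset.mem_range.1 hi; omega)).1
    have h8 : blk α (n + 1) w = blk α n w * bl (α n) w := by
      unfold blk
      rw [Finset.prod_range_succ]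
    rw [h8, norm_mul]
    push_cast
    nlinarith [norm_nonneg (blk α n w), norm_nonneg (bl (α n) w)]

theorem blk_diff {α : ℕ → ℝ} {n : ℕ} (h : ∀ i < n, 0 ≤ α i ∧ α i ≤ 1) {E : Type*}
    [NormedAddCommGroup E] [NormedSpace ℂ E] {U : Set E} {L : E → ℂ}
    (hL : DifferentiableOn ℂ L U) (hL1 : ∀ z ∈ U, ‖L z‖ < 1) :
    DifferentiableOn ℂ (fun z => blk α n (L z)) U := by
  induction n with
  | zero =>
    unfold blk
    simp only [Finset.range_zero, Finset.prod_empty]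
    exact differentiableOn_const 1
  | succ n ih =>
    have ih' := ih fun i hi => h i (by omega)
    unfold blk at ih' ⊢
    simp only [Finset.prod_range_succ]
    refine ih'.mul ?_
    unfold bl
    obtain ⟨h1, h2⟩ := h n (by omega)
    intro z hz
    have hd := den_ne h1 h2 (hL1 z hz)
    have h3 : DifferentiableWithinAt ℂ (fun z => (α n : ℂ) - L z) U z :=
      (differentiableWithinAt_const _).sub (hL z hz)
    have h4 : DifferentiableWithinAt ℂ (fun z => 1 - (α n : ℂ) * L z) U z :=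
      (differentiableWithinAt_const _).sub ((hL z hz).const_mul _)
    have h5 : DifferentiableWithinAt ℂ (fun z => (1 - (α n : ℂ) * L z)⁻¹) U z := by
      exact h4.fun_inv hd
    have h6 := h3.mul h5
    refine h6.congr (fun y _ => ?_) ?_
    · exact div_eq_mul_inv _ _
    · exact div_eq_mul_inv _ _

/-- the unit part of a block -/
noncomputable def un (α : ℕ → ℝ) (c : ℂ) (n : ℕ) (w : ℂ) : ℂ :=
  ∏ i ∈ Finset.range n, (c * (1 - α i * w)⁻¹)

theorem un_ne {α : ℕ → ℝ} {c : ℂ} (hc : c ≠ 0) {n : ℕ} (h : ∀ i < n, 0 ≤ α i ∧ α i ≤ 1) {w : ℂ}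
    (hw : ‖w‖ < 1) : un α c n w ≠ 0 := by
  unfold un
  refine Finset.prod_ne_zero_iff.2 fun i hi => ?_
  obtain ⟨h1, h2⟩ := h i (Finset.mem_range.1 hi)
  exact mul_ne_zero hc (inv_ne_zero (den_ne h1 h2 hw))

theorem un_le {α : ℕ → ℝ} {c : ℂ} (hc : ‖c‖ ≤ 1) {n : ℕ} {δ : ℝ} (hδ : 0 < δ)
    (h : ∀ i < n, 0 ≤ α i ∧ α i ≤ 1 - δ) {w : ℂ}
    (hw : ‖w‖ < 1) : ‖un α c n w‖ ≤ (1 / δ) ^ n := by
  unfold un
  rw [norm_prod]
  calc _ ≤ ∏ i ∈ Finset.range n, (1 / δ) := by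
        refine Finset.prod_le_prod (fun _ _ => norm_nonneg _) fun i hi => ?_
        obtain ⟨h1, h2⟩ := h i (Finset.mem_range.1 hi)
        have h3 := den_ge' h1 hw
        rw [norm_mul, norm_inv]
        have h4 : δ ≤ ‖1 - (α i : ℂ) * w‖ := by linarith
        calc ‖c‖ * ‖1 - (α i : ℂ) * w‖⁻¹ ≤ 1 * δ⁻¹ := by gcongr
          _ = 1 / δ := by rw [one_mul, one_div]
    _ = _ := by rw [Finset.prod_const, Finset.card_range]

/-- lower bound at real points -/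
theorem un_ge {α : ℕ → ℝ} {n : ℕ} (h : ∀ i < n, 0 ≤ α i ∧ α i ≤ 1) {t : ℝ}
    (t0 : 0 ≤ t) (t1 : t < 1) : 1 ≤ ‖un α (-1) n (t : ℂ)‖ := by
  unfold un
  rw [norm_prod]
  have hone : (1 : ℝ) = ∏ i ∈ Finset.range n, (1 : ℝ) := by simp
  rw [hone]
  refine Finset.prod_le_prod (fun _ _ => zero_le_one) fun i hi => ?_
  obtain ⟨h1, h2⟩ := h i (Finset.mem_range.1 hi)
  have h3 : (1 : ℂ) - (α i : ℂ) * (t : ℂ) = ((1 - α i * t : ℝ) : ℂ) := by push_cast; rfl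
  have h4 : 0 < 1 - α i * t := by nlinarith
  rw [norm_mul, norm_neg, norm_one, one_mul, norm_inv, h3, Complex.norm_real,
    Real.norm_of_nonneg h4.le]
  rw [one_le_inv₀ h4]
  nlinarith [mul_nonneg h1 t0]

theorem un_diff {α : ℕ → ℝ} {c : ℂ} {n : ℕ} (h : ∀ i < n, 0 ≤ α i ∧ α i ≤ 1) {E : Type*}
    [NormedAddCommGroup E] [NormedSpace ℂ E] {U : Set E} {L : E → ℂ}
    (hL : DifferentiableOn ℂ L U) (hL1 : ∀ z ∈ U, ‖L z‖ < 1) :
    DifferentiableOn ℂ (fun z => un α c n (L z)) U := by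
  induction n with
  | zero =>
    unfold un
    simp only [Finset.range_zero, Finset.prod_empty]
    exact differentiableOn_const 1
  | succ n ih =>
    have ih' := ih fun i hi => h i (by omega)
    unfold un at ih' ⊢
    simp only [Finset.prod_range_succ]
    refine ih'.mul (DifferentiableOn.const_mul ?_ _)
    obtain ⟨h1, h2⟩ := h n (by omega)
    intro z hz
    have hd := den_ne h1 h2 (hL1 z hz)
    have h4 : DifferentiableWithinAt ℂ (fun z => 1 - (α n : ℂ) * L z) U z :=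
      (differentiableWithinAt_const _).sub ((hL z hz).const_mul _)
    exact h4.fun_inv hd

/-- factorisation of a block -/
theorem blk_eq {α : ℕ → ℝ} {n : ℕ} {e w c x : ℂ} (hc : ∀ i < n, (α i : ℂ) - w = c * (x - i * e)) :
    blk α n w = sf n x e * un α c n w := by
  unfold blk sf un
  rw [← Finset.prod_mul_distrib]
  refine Finset.prod_congr rfl fun i hi => ?_
  unfold bl
  rw [hc i (Finset.mem_range.1 hi), div_eq_mul_inv]
  ring

end Pool.Agent.X190.Hinf
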