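import Pool.Agent.X190.Hinf.Block

/-! The three functions. -/

set_option autoImplicit false

namespace Pool.Agent.X190.Hinf

open Filter Topology Metric Set

section fam

/-- families of blocks -/
structure Fam (B : ℕ → ℂ × ℂ → ℂ) : Prop where
  diff : ∀ m, DifferentiableOn ℂ (B m) (ball 0 1)
  le : ∀ m, ∀ z ∈ ball (0 : ℂ × ℂ) 1, ‖B m z‖ ≤ 1
  near : ∃ u : ℕ → ℝ, Summable u ∧ ∀ m, ∀ z ∈ ball (0 : ℂ × ℂ) 1, ‖B m z - 1‖ ≤ u m / (1 - ‖z‖)

variable {B : ℕ → ℂ × ℂ → ℂ}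

theorem Fam.sum (h : Fam B) {z : ℂ × ℂ} (hz : z ∈ ball (0 : ℂ × ℂ) 1) :
    Summable fun m => ‖B m z - 1‖ := by
  obtain ⟨u, hu, hb⟩ := h.near
  exact Summable.of_nonneg_of_le (fun _ => norm_nonneg _) (fun m => hb m z hz)
    (hu.div_const _)

theorem Fam.ip_diff (h : Fam B) : DifferentiableOn ℂ (fun z => ip fun m => B m z) (ball 0 1) := by
  refine diffOn_ip isOpen_ball h.diff h.le fun x hx => ?_
  obtain ⟨u, hu, hb⟩ := h.near
  have hu0 : ∀ m, 0 ≤ u m := by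
    intro m
    have := (norm_nonneg _).trans (hb m 0 (mem_ball_self one_pos))
    simpa using this
  rw [mem_ball_zero_iff] at hx
  refine ⟨ball 0 ((1 + ‖x‖) / 2), isOpen_ball, ?_, fun m => u m / (1 - (1 + ‖x‖) / 2),
    hu.div_const _, ?_⟩
  · rw [mem_ball_zero_iff]; linarith
  · rintro m y ⟨hy1, hy2⟩
    refine (hb m y hy1).trans ?_
    rw [mem_ball_zero_iff] at hy2
    have h1 : 0 < 1 - (1 + ‖x‖) / 2 := by linarith
    exact div_le_div_of_nonneg_left (hu0 m) h1 (by linarith)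

/-- remove a block -/
noncomputable def rem (B : ℕ → ℂ × ℂ → ℂ) (m : ℕ) : ℕ → ℂ × ℂ → ℂ :=
  fun j z => if j = m then 1 else B j z

theorem rem_eq (B : ℕ → ℂ × ℂ → ℂ) (m : ℕ) (z : ℂ × ℂ) :
    (fun j => rem B m j z) = Function.update (fun j => B j z) m 1 := by
  funext j
  unfold rem
  by_cases h : j = m
  · subst h; simp
  · rw [if_neg h, Function.update_of_ne h]

theorem Fam.rem (h : Fam B) (m : ℕ) : Fam (rem B m) := by
  refine ⟨fun j => ?_, fun j z hz => ?_, ?_⟩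
  · by_cases hj : j = m
    · have : Hinf.rem B m j = fun _ => 1 := by
        funext z; unfold Hinf.rem; rw [if_pos hj]
      rw [this]
      exact differentiableOn_const 1
    · have : Hinf.rem B m j = B j := by
        funext z; unfold Hinf.rem; rw [if_neg hj]
      rw [this]
      exact h.diff j
  · unfold Hinf.rem
    split_ifs
    · simp
    · exact h.le j z hz
  · obtain ⟨u, hu, hb⟩ := h.near
    refine ⟨u, hu, fun j z hz => ?_⟩
    unfold Hinf.rem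
    split_ifs
    · rw [sub_self, norm_zero]
      exact (norm_nonneg _).trans (hb j z hz)
    · exact hb j z hz

theorem Fam.factor (h : Fam B) (m : ℕ) {z : ℂ × ℂ} (hz : z ∈ ball (0 : ℂ × ℂ) 1) :
    (ip fun j => B j z) = B m z * ip fun j => Hinf.rem B m j z := by
  rw [rem_eq]
  exact ip_update (fun j => h.le j z hz) (h.sum hz) m

end fam

section param

/-- distances to the boundary -/
noncomputable def dd (m : ℕ) : ℝ := (1 / 4) ^ ((m + 4) ^ 2)

/-- tilts -/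
noncomputable def tt (m : ℕ) : ℝ := dd m * (1 / 4) ^ (m + 4)

theorem dd_pos (m : ℕ) : 0 < dd m := by unfold dd; positivity

theorem tt_pos (m : ℕ) : 0 < tt m := mul_pos (dd_pos m) (by positivity)

theorem q_le (m : ℕ) : ((1 : ℝ) / 4) ^ (m + 4) ≤ 1 / 256 := by
  calc ((1 : ℝ) / 4) ^ (m + 4) ≤ (1 / 4) ^ 4 :=
        pow_le_pow_of_le_one (by norm_num) (by norm_num) (by omega)
    _ = 1 / 256 := by norm_num

theorem dd_le' (m : ℕ) : dd m ≤ (1 / 4) ^ (m + 4) := by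
  unfold dd
  exact pow_le_pow_of_le_one (by norm_num) (by norm_num) (by nlinarith)

theorem dd_le (m : ℕ) : dd m ≤ 1 / 256 := (dd_le' m).trans (q_le m)

theorem tt_le (m : ℕ) : tt m ≤ dd m / 256 := by
  unfold tt
  have := q_le m
  have := dd_pos m
  nlinarith

theorem dd_lt {i j : ℕ} (h : i < j) : dd j ≤ dd i * (1 / 4) ^ (j + 4) := by
  unfold dd
  rw [← pow_add]
  refine pow_le_pow_of_le_one (by norm_num) (by norm_num) ?_
  obtain ⟨k, rfl⟩ : ∃ k, j = i + 1 + k := ⟨j - i - 1, by omega⟩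
  nlinarith

/-- centres -/
noncomputable def aa (m : ℕ) : ℝ := 1 - dd m

/-- cosines -/
noncomputable def cc (m : ℕ) : ℝ := 1 - tt m

theorem cc_ge (m : ℕ) : 1 / 2 ≤ cc m := by
  unfold cc
  have := tt_le m
  have := dd_le m
  linarith

theorem cc_pos (m : ℕ) : 0 < cc m := by
  have := cc_ge m
  linarith

theorem cc_lt (m : ℕ) : cc m < 1 := by
  unfold cc
  have := tt_pos m
  linarith

/-- mesh condition -/
def Mesh (e : ℕ → ℝ) : Prop := ∀ m, 0 < e m ∧ 8 * ((m : ℝ) + 1) * e m ≤ tt m * dd m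

variable {e : ℕ → ℝ}

theorem Mesh.small (he : Mesh e) (m : ℕ) : ((m : ℝ) + 1) * e m ≤ dd m / 8 := by
  have h1 := (he m).2
  have h2 := tt_le m
  have h3 := dd_le m
  have h4 := dd_pos m
  have h5 := tt_pos m
  nlinarith

/-- zeros -/
noncomputable def al (e : ℕ → ℝ) (m i : ℕ) : ℝ := aa m + i * e m

/-- zeros of the third function -/
noncomputable def be (e : ℕ → ℝ) (m i : ℕ) : ℝ := (aa m + (m + 1 + i) * e m / 2) / cc m

theorem al_mem (he : Mesh e) {m i : ℕ} (hi : i < m + 1) :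
    0 ≤ al e m i ∧ al e m i ≤ 1 - dd m / 2 ∧ 1 - al e m i ≤ dd m := by
  have h1 := he.small m
  have h2 := (he m).1
  have h3 := dd_le m
  have h4 := dd_pos m
  have h5 : (i : ℝ) ≤ m + 1 := by
    have : (i : ℝ) < ((m + 1 : ℕ) : ℝ) := by exact_mod_cast hi
    push_cast at this
    exact this.le
  have h6 : (i : ℝ) * e m ≤ dd m / 8 := (mul_le_mul_of_nonneg_right h5 h2.le).trans h1
  have h7 : 0 ≤ (i : ℝ) * e m := by positivity
  unfold al aa
  refine ⟨by linarith, by linarith, by linarith⟩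

/-- general estimate for quotients by the cosine -/
theorem quot_mem (he : Mesh e) {m : ℕ} {s : ℝ} (hs0 : 0 ≤ s) (hs : s ≤ m + 1) :
    dd m / 2 ≤ 1 - (aa m + s * e m) / cc m ∧ 1 - (aa m + s * e m) / cc m ≤ dd m := by
  have h1 := he.small m
  have h2 := (he m).1
  have h3 := dd_le m
  have h4 := dd_pos m
  have h5 := cc_pos m
  have h6 : s * e m ≤ dd m / 8 := (mul_le_mul_of_nonneg_right hs h2.le).trans h1
  have h7 : 0 ≤ s * e m := by positivity
  have h8 := tt_le m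
  have h9 := tt_pos m
  have h10 : 1 - (aa m + s * e m) / cc m = (dd m - tt m - s * e m) / cc m := by
    rw [eq_div_iff h5.ne', sub_mul, div_mul_cancel₀ _ h5.ne']
    unfold cc aa
    ring
  rw [h10]
  constructor
  · rw [le_div_iff₀ h5]
    have := cc_lt m
    nlinarith
  · rw [div_le_iff₀ h5]
    unfold cc
    nlinarith

theorem be_mem (he : Mesh e) {m i : ℕ} (hi : i < m) :
    0 ≤ be e m i ∧ be e m i ≤ 1 - dd m / 2 ∧ 1 - be e m i ≤ dd m := by
  have h2 := (he m).1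
  have h3 := dd_le m
  have h5 : (i : ℝ) ≤ m := by exact_mod_cast hi.le
  have h6 : be e m i = (aa m + ((m + 1 + i) / 2 : ℝ) * e m) / cc m := by
    unfold be
    congr 1
    ring
  have h7 := quot_mem he (m := m) (s := (m + 1 + i) / 2) (by positivity) (by linarith)
  rw [← h6] at h7
  refine ⟨by linarith, by linarith, by linarith⟩

/-- first functional -/
noncomputable def lam (m : ℕ) (z : ℂ × ℂ) : ℂ := cc m * z.1 + tt m * z.2

/-- second functional -/
noncomputable def muu (m : ℕ) (z : ℂ × ℂ) : ℂ := cc m * z.1 - tt m * z.2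

theorem lam_le (m : ℕ) (z : ℂ × ℂ) : ‖lam m z‖ ≤ ‖z‖ := by
  have h1 := norm_fst_le z
  have h2 := norm_snd_le z
  have h3 := cc_pos m
  have h4 := tt_pos m
  unfold lam
  calc _ ≤ ‖(cc m : ℂ) * z.1‖ + ‖(tt m : ℂ) * z.2‖ := norm_add_le _ _
    _ = cc m * ‖z.1‖ + tt m * ‖z.2‖ := by
        rw [norm_mul, norm_mul, Complex.norm_real, Complex.norm_real,
          Real.norm_of_nonneg h3.le, Real.norm_of_nonneg h4.le]
    _ ≤ cc m * ‖z‖ + tt m * ‖z‖ := by gcongr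
    _ = ‖z‖ := by unfold cc; ring

theorem muu_le (m : ℕ) (z : ℂ × ℂ) : ‖muu m z‖ ≤ ‖z‖ := by
  have h1 := norm_fst_le z
  have h2 := norm_snd_le z
  have h3 := cc_pos m
  have h4 := tt_pos m
  unfold muu
  calc _ ≤ ‖(cc m : ℂ) * z.1‖ + ‖(tt m : ℂ) * z.2‖ := norm_sub_le _ _
    _ = cc m * ‖z.1‖ + tt m * ‖z.2‖ := by
        rw [norm_mul, norm_mul, Complex.norm_real, Complex.norm_real,
          Real.norm_of_nonneg h3.le, Real.norm_of_nonneg h4.le]
    _ ≤ cc m * ‖z‖ + tt m * ‖z‖ := by gcongr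
    _ = ‖z‖ := by unfold cc; ring

/-- blocks -/
noncomputable def B1 (e : ℕ → ℝ) (m : ℕ) (z : ℂ × ℂ) : ℂ := blk (al e m) (m + 1) (lam m z)

/-- blocks -/
noncomputable def B2 (e : ℕ → ℝ) (m : ℕ) (z : ℂ × ℂ) : ℂ := blk (al e m) (m + 1) (muu m z)

/-- blocks -/
noncomputable def B3 (e : ℕ → ℝ) (m : ℕ) (z : ℂ × ℂ) : ℂ := blk (be e m) m z.1

theorem two_pow_ge (m : ℕ) : (m : ℝ) + 1 ≤ 2 ^ m := by
  have : m + 1 ≤ 2 ^ m := Nat.lt_two_pow_self
  exact_mod_cast this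

theorem summable_u : Summable fun m : ℕ => ((m : ℝ) + 1) * (2 * dd m) := by
  have h1 : Summable fun m : ℕ => ((1 : ℝ) / 2) ^ m := summable_geometric_two
  refine Summable.of_nonneg_of_le (fun m => ?_) (fun m => ?_) h1
  · have := dd_pos m
    positivity
  · have h2 := two_pow_ge m
    have h3 := dd_le' m
    have h4 := dd_pos m
    calc ((m : ℝ) + 1) * (2 * dd m) ≤ 2 ^ m * (2 * (1 / 4) ^ (m + 4)) := by gcongr
      _ = (2 * (1 / 4)) ^ m * (2 * (1 / 4) ^ 4) := by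
          rw [mul_pow, pow_add]; ring
      _ ≤ (2 * (1 / 4)) ^ m * 1 := by gcongr; norm_num
      _ = (1 / 2) ^ m := by norm_num

theorem fam_of {α : ℕ → ℕ → ℝ} {n : ℕ → ℕ} (hn : ∀ m, n m ≤ m + 1)
    (hα : ∀ m, ∀ i < n m, 0 ≤ α m i ∧ α m i ≤ 1 - dd m / 2 ∧ 1 - α m i ≤ dd m)
    {L : ℕ → ℂ × ℂ → ℂ} (hL : ∀ m, Differentiable ℂ (L m)) (hL1 : ∀ m z, ‖L m z‖ ≤ ‖z‖) :
    Fam fun m z => blk (α m) (n m) (L m z) := by
  have hα' : ∀ m, ∀ i < n m, 0 ≤ α m i ∧ α m i ≤ 1 := fun m i hi =>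
    ⟨(hα m i hi).1, by
      have := (hα m i hi).2.1
      have := dd_pos m
      linarith⟩
  have hlt : ∀ m, ∀ z ∈ ball (0 : ℂ × ℂ) 1, ‖L m z‖ < 1 := fun m z hz =>
    (hL1 m z).trans_lt (mem_ball_zero_iff.1 hz)
  refine ⟨fun m => ?_, fun m z hz => ?_, fun m => ((m : ℝ) + 1) * (2 * dd m), summable_u,
    fun m z hz => ?_⟩
  · exact blk_diff (hα' m) (hL m).differentiableOn (hlt m)
  · exact blk_norm_le (hα' m) (hlt m z hz)
  · have h1 := blk_sub_one (fun i hi => ⟨(hα' m i hi).1, (hα' m i hi).2, (hα m i hi).2.2⟩)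
      (hlt m z hz)
    refine h1.trans ?_
    have h2 : ‖L m z‖ ≤ ‖z‖ := hL1 m z
    have h3 : ‖z‖ < 1 := mem_ball_zero_iff.1 hz
    have h4 : (n m : ℝ) ≤ m + 1 := by exact_mod_cast hn m
    have h5 := dd_pos m
    have h6 : 0 < 1 - ‖z‖ := by linarith
    have h7 : 0 < 1 - ‖L m z‖ := by linarith
    calc (n m : ℝ) * (2 * dd m / (1 - ‖L m z‖)) ≤ (m + 1) * (2 * dd m / (1 - ‖z‖)) := by
          gcongr
      _ = _ := by ring

theorem lam_diff (m : ℕ) : Differentiable ℂ (lam m) := by unfold lam; fun_prop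

theorem muu_diff (m : ℕ) : Differentiable ℂ (muu m) := by unfold muu; fun_prop

theorem fam1 (he : Mesh e) : Fam (B1 e) :=
  fam_of (fun _ => le_rfl) (fun _ _ hi => al_mem he hi) lam_diff lam_le

theorem fam2 (he : Mesh e) : Fam (B2 e) :=
  fam_of (fun _ => le_rfl) (fun _ _ hi => al_mem he hi) muu_diff muu_le

theorem fam3 (he : Mesh e) : Fam (B3 e) :=
  fam_of (fun m => Nat.le_succ m) (fun _ _ hi => be_mem he hi) (fun _ => differentiable_fst)
    (fun _ z => norm_fst_le z)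

/-- the first function -/
noncomputable def f1 (e : ℕ → ℝ) (z : ℂ × ℂ) : ℂ := ip fun m => B1 e m z

/-- the second function -/
noncomputable def f2 (e : ℕ → ℝ) (z : ℂ × ℂ) : ℂ := ip fun m => B2 e m z

/-- the third function -/
noncomputable def f3 (e : ℕ → ℝ) (z : ℂ × ℂ) : ℂ := ip fun m => B3 e m z

/-- cofactors -/
noncomputable def C1 (e : ℕ → ℝ) (m : ℕ) (z : ℂ × ℂ) : ℂ :=
  un (al e m) (-1) (m + 1) (lam m z) * ip fun j => rem (B1 e) m j z

/-- cofactors -/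
noncomputable def C2 (e : ℕ → ℝ) (m : ℕ) (z : ℂ × ℂ) : ℂ :=
  un (al e m) (-1) (m + 1) (muu m z) * ip fun j => rem (B2 e) m j z

/-- cofactors -/
noncomputable def C3 (e : ℕ → ℝ) (m : ℕ) (z : ℂ × ℂ) : ℂ :=
  un (be e m) (-(2 * cc m : ℂ)⁻¹) m z.1 * ip fun j => rem (B3 e) m j z

/-- coordinates -/
noncomputable def xx (m : ℕ) (z : ℂ × ℂ) : ℂ := lam m z - aa m

/-- coordinates -/
noncomputable def yy (m : ℕ) (z : ℂ × ℂ) : ℂ := muu m z - aa m

theorem f1_eq (he : Mesh e) (m : ℕ) {z : ℂ × ℂ} (hz : z ∈ ball (0 : ℂ × ℂ) 1) :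
    f1 e z = sf (m + 1) (xx m z) (e m) * C1 e m z := by
  unfold f1 C1
  rw [(fam1 he).factor m hz, ← mul_assoc]
  congr 1
  unfold B1
  refine blk_eq fun i _ => ?_
  unfold al xx
  push_cast
  ring

theorem f2_eq (he : Mesh e) (m : ℕ) {z : ℂ × ℂ} (hz : z ∈ ball (0 : ℂ × ℂ) 1) :
    f2 e z = sf (m + 1) (yy m z) (e m) * C2 e m z := by
  unfold f2 C2
  rw [(fam2 he).factor m hz, ← mul_assoc]
  congr 1
  unfold B2
  refine blk_eq fun i _ => ?_
  unfold al yy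
  push_cast
  ring

theorem f3_eq (he : Mesh e) (m : ℕ) {z : ℂ × ℂ} (hz : z ∈ ball (0 : ℂ × ℂ) 1) :
    f3 e z = sf m (xx m z + yy m z - ((m + 1 : ℕ) : ℂ) * e m) (e m) * C3 e m z := by
  unfold f3 C3
  rw [(fam3 he).factor m hz, ← mul_assoc]
  congr 1
  unfold B3
  refine blk_eq fun i _ => ?_
  have hc : (cc m : ℂ) ≠ 0 := by exact_mod_cast (cc_pos m).ne'
  unfold be xx yy lam muu
  push_cast
  field_simp
  ring

end param

end Pool.Agent.X190.Hinf
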