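import Pool.Agent.X190.Hinf.Funs

/-! The clusters of points. -/

set_option autoImplicit false

namespace Pool.Agent.X190.Hinf

open Filter Topology Metric Set

variable {e : ℕ → ℝ}

/-- deviations from one -/
noncomputable def vv (j : ℕ) : ℝ := ((j : ℝ) + 1) * (12 * (1 / 4) ^ (j + 4))

theorem vv_nonneg (j : ℕ) : 0 ≤ vv j := by unfold vv; positivity

theorem vv_sum (n : ℕ) : ∑ j ∈ Finset.range n, vv j ≤ 1 / 4 := by
  have h1 : ∀ j : ℕ, vv j ≤ 12 / 256 * (1 / 2) ^ j := by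
    intro j
    unfold vv
    have h2 := two_pow_ge j
    calc ((j : ℝ) + 1) * (12 * (1 / 4) ^ (j + 4)) ≤ 2 ^ j * (12 * (1 / 4) ^ (j + 4)) := by gcongr
      _ = (2 * (1 / 4)) ^ j * (12 * (1 / 4) ^ 4) := by rw [mul_pow, pow_add]; ring
      _ = _ := by norm_num; ring
  calc ∑ j ∈ Finset.range n, vv j ≤ ∑ j ∈ Finset.range n, 12 / 256 * (1 / 2 : ℝ) ^ j :=
        Finset.sum_le_sum fun j _ => h1 j
    _ = 12 / 256 * ∑ j ∈ Finset.range n, (1 / 2 : ℝ) ^ j := by rw [Finset.mul_sum]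
    _ ≤ 12 / 256 * 2 := by
        gcongr
        have := (summable_geometric_two).sum_le_tsum (Finset.range n) (fun _ _ => by positivity)
        rwa [tsum_geometric_two] at this
    _ ≤ 1 / 4 := by norm_num

variable {B : ℕ → ℂ × ℂ → ℂ}

theorem rem_zero (h : Fam B) {m m' : ℕ} (hne : m ≠ m') {z : ℂ × ℂ}
    (hz : z ∈ ball (0 : ℂ × ℂ) 1) (h0 : B m z = 0) : (ip fun j => rem B m' j z) = 0 := by
  rw [(h.rem m').factor m hz]
  unfold rem
  rw [if_neg hne, h0, zero_mul]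

theorem rem_ge (h : Fam B) (m : ℕ) {z : ℂ × ℂ} (hz : z ∈ ball (0 : ℂ × ℂ) 1)
    (hv : ∀ j, j ≠ m → 1 - vv j ≤ ‖B j z‖) : 3 / 4 ≤ ‖ip fun j => rem B m j z‖ := by
  have h1 := le_norm_ip (b := fun j => rem B m j z) (fun j => (h.rem m).le j z hz)
    ((h.rem m).sum hz) (v := vv) (fun j => by
      unfold rem
      split_ifs with hj
      · rw [norm_one]
        have := vv_nonneg j
        linarith
      · exact hv j hj) vv_nonneg (V := 1 / 4) vv_sum
  linarith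

/-- separation of the clusters -/
theorem bl_sep {m j : ℕ} (hne : j ≠ m) {t α : ℝ} (t0 : 0 ≤ t) (h1 : dd m / 2 ≤ 1 - t)
    (h2 : 1 - t ≤ dd m + 2 * tt j) (a0 : 0 ≤ α) (h3 : dd j / 2 ≤ 1 - α) (h4 : 1 - α ≤ dd j) :
    1 - 12 * (1 / 4) ^ (j + 4) ≤ ‖bl α (t : ℂ)‖ := by
  have hm := dd_pos m
  have hj := dd_pos j
  have ht : t < 1 := by linarith
  have ha : α < 1 := by linarith
  have hq : (0 : ℝ) < (1 / 4) ^ (j + 4) := by positivity
  rcases lt_or_gt_of_ne hne with h | h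
  · -- j < m
    have h5 := bl_ge2 a0 ha t0 ht
    refine le_trans ?_ h5
    have h6 := dd_lt h
    have h7 : ((1 : ℝ) / 4) ^ (m + 4) ≤ (1 / 4) ^ (j + 4) :=
      pow_le_pow_of_le_one (by norm_num) (by norm_num) (by omega)
    have h8 : 2 * (1 - t) / (1 - α) ≤ 12 * (1 / 4) ^ (j + 4) := by
      rw [div_le_iff₀ (by linarith)]
      have h9 : dd m ≤ dd j * (1 / 4) ^ (j + 4) := h6.trans (by gcongr)
      have h10 : tt j = dd j * (1 / 4) ^ (j + 4) := rfl
      calc 2 * (1 - t) ≤ 2 * (dd m + 2 * tt j) := by linarith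
        _ ≤ 2 * (dd j * (1 / 4) ^ (j + 4) + 2 * (dd j * (1 / 4) ^ (j + 4))) := by
            rw [h10]; linarith
        _ = 12 * (1 / 4) ^ (j + 4) * (dd j / 2) := by ring
        _ ≤ 12 * (1 / 4) ^ (j + 4) * (1 - α) := by gcongr
    linarith
  · -- m < j
    have h5 := bl_ge1 a0 ha t0 ht
    refine le_trans ?_ h5
    have h6 := dd_lt h
    have h8 : 2 * (1 - α) / (1 - t) ≤ 12 * (1 / 4) ^ (j + 4) := by
      rw [div_le_iff₀ (by linarith)]
      calc 2 * (1 - α) ≤ 2 * (dd m * (1 / 4) ^ (j + 4)) := by linarith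
        _ = 4 * (1 / 4) ^ (j + 4) * (dd m / 2) := by ring
        _ ≤ 12 * (1 / 4) ^ (j + 4) * (1 - t) := by gcongr; norm_num
    linarith

theorem blk_sep {m j n : ℕ} (hne : j ≠ m) (hn : n ≤ j + 1) {α : ℕ → ℝ}
    (hα : ∀ i < n, 0 ≤ α i ∧ α i ≤ 1 - dd j / 2 ∧ 1 - α i ≤ dd j) {t : ℝ} (t0 : 0 ≤ t)
    (h1 : dd m / 2 ≤ 1 - t) (h2 : 1 - t ≤ dd m + 2 * tt j) : 1 - vv j ≤ ‖blk α n (t : ℂ)‖ := by
  have hm := dd_pos m
  have hj := dd_pos j
  have ht : ‖(t : ℂ)‖ < 1 := by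
    rw [Complex.norm_real, Real.norm_of_nonneg t0]; linarith
  have h3 := blk_ge (α := α) (n := n) (v := 12 * (1 / 4) ^ (j + 4)) (w := (t : ℂ))
    (by positivity) (fun i hi => by
      obtain ⟨h4, h5, h6⟩ := hα i hi
      exact ⟨bl_norm_le h4 (by linarith) ht, bl_sep hne t0 h1 h2 h4 (by linarith) h6⟩)
  refine le_trans ?_ h3
  unfold vv
  have : (n : ℝ) ≤ j + 1 := by exact_mod_cast hn
  have h4 : (0 : ℝ) < 12 * (1 / 4) ^ (j + 4) := by positivity
  nlinarith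

/-- affine charts -/
noncomputable def Ph (m : ℕ) (w : ℂ × ℂ) : ℂ × ℂ :=
  ((2 * aa m + w.1 + w.2) / (2 * cc m), (w.1 - w.2) / (2 * tt m))

theorem Ph_diff (m : ℕ) : Differentiable ℂ (Ph m) := by
  unfold Ph
  have h1 : (fun w : ℂ × ℂ => ((2 * aa m + w.1 + w.2) / (2 * cc m), (w.1 - w.2) / (2 * tt m))) =
      fun w : ℂ × ℂ => ((2 * cc m : ℂ)⁻¹ * (2 * aa m + w.1 + w.2),
        (2 * tt m : ℂ)⁻¹ * (w.1 - w.2)) := by
    funext w
    simp only [div_eq_mul_inv, mul_comm]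
  rw [h1]
  fun_prop

theorem xx_Ph (m : ℕ) (w : ℂ × ℂ) : xx m (Ph m w) = w.1 := by
  have h1 : (cc m : ℂ) ≠ 0 := by exact_mod_cast (cc_pos m).ne'
  have h2 : (tt m : ℂ) ≠ 0 := by exact_mod_cast (tt_pos m).ne'
  unfold xx lam Ph
  field_simp
  ring

theorem yy_Ph (m : ℕ) (w : ℂ × ℂ) : yy m (Ph m w) = w.2 := by
  have h1 : (cc m : ℂ) ≠ 0 := by exact_mod_cast (cc_pos m).ne'
  have h2 : (tt m : ℂ) ≠ 0 := by exact_mod_cast (tt_pos m).ne'
  unfold yy muu Ph
  field_simp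
  ring

/-- cluster points -/
noncomputable def cp (e : ℕ → ℝ) (m l k : ℕ) : ℂ × ℂ := Ph m (gp (e m) l k)

/-- first coordinate -/
noncomputable def t1 (e : ℕ → ℝ) (m l k : ℕ) : ℝ := (aa m + ((l + k : ℝ) / 2) * e m) / cc m

/-- second coordinate -/
noncomputable def t2 (e : ℕ → ℝ) (m l k : ℕ) : ℝ := ((l : ℝ) - k) * e m / (2 * tt m)

theorem cp_eq (e : ℕ → ℝ) (m l k : ℕ) : cp e m l k = ((t1 e m l k : ℂ), (t2 e m l k : ℂ)) := by
  have h1 : (cc m : ℂ) ≠ 0 := by exact_mod_cast (cc_pos m).ne'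
  have h2 : (tt m : ℂ) ≠ 0 := by exact_mod_cast (tt_pos m).ne'
  unfold cp Ph gp t1 t2
  ext
  · push_cast
    field_simp
    ring
  · push_cast
    field_simp

theorem t1_mem (he : Mesh e) {m l k : ℕ} (h : l + k ≤ m + 1) :
    dd m / 2 ≤ 1 - t1 e m l k ∧ 1 - t1 e m l k ≤ dd m := by
  have h1 : (l : ℝ) + k ≤ m + 1 := by exact_mod_cast h
  exact quot_mem he (by positivity) (by linarith)

theorem t2_le (he : Mesh e) {m l k : ℕ} (h : l + k ≤ m + 1) : |t2 e m l k| ≤ dd m / 16 := by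
  have h1 : (l : ℝ) + k ≤ m + 1 := by exact_mod_cast h
  have h2 := (he m).1
  have h3 := (he m).2
  have h4 := tt_pos m
  have hl : (0 : ℝ) ≤ l := Nat.cast_nonneg l
  have hk : (0 : ℝ) ≤ k := Nat.cast_nonneg k
  unfold t2
  rw [abs_div, abs_mul, abs_of_pos h2, abs_of_pos (by positivity : 0 < 2 * tt m),
    div_le_iff₀ (by positivity)]
  have h5 : |(l : ℝ) - k| ≤ m + 1 := by
    rw [abs_le]; constructor <;> linarith
  calc |(l : ℝ) - k| * e m ≤ (m + 1) * e m := by gcongr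
    _ ≤ dd m / 16 * (2 * tt m) := by linarith

theorem cp_mem (he : Mesh e) {m l k : ℕ} (h : l + k ≤ m + 1) :
    cp e m l k ∈ ball (0 : ℂ × ℂ) 1 := by
  have h1 := t1_mem he h
  have h2 := t2_le he h
  have h3 := dd_pos m
  have h4 := dd_le m
  rw [mem_ball_zero_iff, cp_eq, Prod.norm_def, max_lt_iff]
  constructor
  · simp only [Complex.norm_real, Real.norm_eq_abs]
    rw [abs_lt]; constructor <;> linarith
  · simp only [Complex.norm_real, Real.norm_eq_abs]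
    linarith

theorem lam_cp (e : ℕ → ℝ) (j m l k : ℕ) :
    lam j (cp e m l k) = ((cc j * t1 e m l k + tt j * t2 e m l k : ℝ) : ℂ) := by
  rw [cp_eq]; unfold lam; push_cast; rfl

theorem muu_cp (e : ℕ → ℝ) (j m l k : ℕ) :
    muu j (cp e m l k) = ((cc j * t1 e m l k - tt j * t2 e m l k : ℝ) : ℂ) := by
  rw [cp_eq]; unfold muu; push_cast; rfl

theorem mix_mem (he : Mesh e) {m l k : ℕ} (h : l + k ≤ m + 1) (j : ℕ) (s : ℝ) (hs : |s| ≤ 1) :
    0 ≤ cc j * t1 e m l k + tt j * (s * t2 e m l k) ∧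
    dd m / 2 ≤ 1 - (cc j * t1 e m l k + tt j * (s * t2 e m l k)) ∧
    1 - (cc j * t1 e m l k + tt j * (s * t2 e m l k)) ≤ dd m + 2 * tt j := by
  have h1 := t1_mem he h
  have h2 := t2_le he h
  have h3 := dd_pos m
  have h4 := dd_le m
  have h5 := tt_pos j
  have h6 := tt_le j
  have h7 := dd_le j
  have h9 : |s * t2 e m l k| ≤ dd m / 16 := by
    rw [abs_mul]
    calc |s| * |t2 e m l k| ≤ 1 * (dd m / 16) := by gcongr
      _ = _ := one_mul _
  rw [abs_le] at h9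
  set u := s * t2 e m l k
  set t := t1 e m l k
  have h10 : 1 - (cc j * t + tt j * u) = (1 - t) + tt j * (t - u) := by unfold cc; ring
  have h11 : 0 ≤ t - u := by linarith
  have h12 : t - u ≤ 2 := by linarith
  have h13 : 0 ≤ tt j * (t - u) := mul_nonneg h5.le h11
  have h14 : tt j * (t - u) ≤ tt j * 2 := mul_le_mul_of_nonneg_left h12 h5.le
  rw [h10]
  refine ⟨?_, by linarith, by linarith⟩
  have h15 : cc j * t + tt j * u = 1 - ((1 - t) + tt j * (t - u)) := by rw [← h10]; ring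
  rw [h15]
  linarith

theorem C1_ge (he : Mesh e) {m l k : ℕ} (h : l + k ≤ m + 1) : 3 / 4 ≤ ‖C1 e m (cp e m l k)‖ := by
  have hz := cp_mem he h
  have h1 : ∀ j, j ≠ m → 1 - vv j ≤ ‖B1 e j (cp e m l k)‖ := by
    intro j hj
    obtain ⟨a1, a2, a3⟩ := mix_mem he h j 1 (by simp)
    rw [one_mul] at a1 a2 a3
    unfold B1
    rw [lam_cp]
    exact blk_sep hj le_rfl (fun i hi => al_mem he hi) a1 a2 a3
  have h2 := rem_ge (fam1 he) m hz h1
  obtain ⟨a1, a2, a3⟩ := mix_mem he h m 1 (by simp)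
  rw [one_mul] at a1 a2 a3
  have h3 := un_ge (α := al e m) (n := m + 1) (fun i hi => ⟨(al_mem he hi).1, by
    have := (al_mem he hi).2.1
    have := dd_pos m
    linarith⟩) a1 (by have := dd_pos m; linarith)
  rw [← lam_cp] at h3
  unfold C1
  rw [norm_mul]
  nlinarith [norm_nonneg (ip fun j => rem (B1 e) m j (cp e m l k))]

theorem C2_ge (he : Mesh e) {m l k : ℕ} (h : l + k ≤ m + 1) : 3 / 4 ≤ ‖C2 e m (cp e m l k)‖ := by
  have hz := cp_mem he h
  have h1 : ∀ j, j ≠ m → 1 - vv j ≤ ‖B2 e j (cp e m l k)‖ := by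
    intro j hj
    obtain ⟨a1, a2, a3⟩ := mix_mem he h j (-1) (by simp)
    rw [neg_one_mul, mul_neg, ← sub_eq_add_neg] at a1 a2 a3
    unfold B2
    rw [muu_cp]
    exact blk_sep hj le_rfl (fun i hi => al_mem he hi) a1 a2 a3
  have h2 := rem_ge (fam2 he) m hz h1
  obtain ⟨a1, a2, a3⟩ := mix_mem he h m (-1) (by simp)
  rw [neg_one_mul, mul_neg, ← sub_eq_add_neg] at a1 a2 a3
  have h3 := un_ge (α := al e m) (n := m + 1) (fun i hi => ⟨(al_mem he hi).1, by
    have := (al_mem he hi).2.1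
    have := dd_pos m
    linarith⟩) a1 (by have := dd_pos m; linarith)
  rw [← muu_cp] at h3
  unfold C2
  rw [norm_mul]
  nlinarith [norm_nonneg (ip fun j => rem (B2 e) m j (cp e m l k))]

theorem C3_ne (he : Mesh e) {m l k : ℕ} (h : l + k ≤ m + 1) : C3 e m (cp e m l k) ≠ 0 := by
  have hz := cp_mem he h
  have hfst : (cp e m l k).1 = ((t1 e m l k : ℝ) : ℂ) := by rw [cp_eq]
  have h1 : ∀ j, j ≠ m → 1 - vv j ≤ ‖B3 e j (cp e m l k)‖ := by
    intro j hj
    have a := t1_mem he h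
    have h3 := dd_pos m
    have h4 := dd_le m
    have h5 := tt_pos j
    unfold B3
    rw [hfst]
    exact blk_sep hj (Nat.le_succ j) (fun i hi => be_mem he hi) (by linarith) a.1 (by linarith)
  have h2 := rem_ge (fam3 he) m hz h1
  unfold C3
  refine mul_ne_zero ?_ ?_
  · refine un_ne ?_ (fun i hi => ⟨(be_mem he hi).1, by
      have := (be_mem he hi).2.1
      have := dd_pos m
      linarith⟩) ?_
    · have : (cc m : ℂ) ≠ 0 := by exact_mod_cast (cc_pos m).ne'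
      simpa using this
    · exact (norm_fst_le _).trans_lt (mem_ball_zero_iff.1 hz)
  · intro h3
    rw [h3, norm_zero] at h2
    norm_num at h2

theorem xx_cp (e : ℕ → ℝ) (m l k : ℕ) : xx m (cp e m l k) = l * e m := xx_Ph _ _

theorem yy_cp (e : ℕ → ℝ) (m l k : ℕ) : yy m (cp e m l k) = k * e m := yy_Ph _ _

theorem C1_zero (he : Mesh e) {m m' l k : ℕ} (hne : m ≠ m') (h : l + k ≤ m + 1) (hl : l < m + 1) :
    C1 e m' (cp e m l k) = 0 := by
  have hz := cp_mem he h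
  have h0 : B1 e m (cp e m l k) = 0 := by
    unfold B1
    rw [blk_eq (e := (e m : ℂ)) (c := -1) (x := xx m (cp e m l k)) (fun i _ => by
      unfold al xx; push_cast; ring), xx_cp, sf_eval_zero hl, zero_mul]
  unfold C1
  rw [rem_zero (fam1 he) hne hz h0, mul_zero]

theorem C2_zero (he : Mesh e) {m m' l k : ℕ} (hne : m ≠ m') (h : l + k ≤ m + 1) (hk : k < m + 1) :
    C2 e m' (cp e m l k) = 0 := by
  have hz := cp_mem he h
  have h0 : B2 e m (cp e m l k) = 0 := by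
    unfold B2
    rw [blk_eq (e := (e m : ℂ)) (c := -1) (x := yy m (cp e m l k)) (fun i _ => by
      unfold al yy; push_cast; ring), yy_cp, sf_eval_zero hk, zero_mul]
  unfold C2
  rw [rem_zero (fam2 he) hne hz h0, mul_zero]

/-- the first two functions vanish on the triangles -/
theorem f1_zero (he : Mesh e) {m l k : ℕ} (h : l + k ≤ m + 1) (hl : l < m + 1) :
    f1 e (cp e m l k) = 0 := by
  rw [f1_eq he m (cp_mem he h), xx_cp, sf_eval_zero hl, zero_mul]

theorem f2_zero (he : Mesh e) {m l k : ℕ} (h : l + k ≤ m + 1) (hk : k < m + 1) :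
    f2 e (cp e m l k) = 0 := by
  rw [f2_eq he m (cp_mem he h), yy_cp, sf_eval_zero hk, zero_mul]

/-- the third one does not -/
theorem f3_ne (he : Mesh e) {m l k : ℕ} (h : l + k < m + 1) : f3 e (cp e m l k) ≠ 0 := by
  rw [f3_eq he m (cp_mem he h.le), xx_cp, yy_cp]
  refine mul_ne_zero (sf_ne_zero fun i _ heq => ?_) (C3_ne he h.le)
  have h1 : ((l : ℂ) * e m + k * e m - ((m + 1 : ℕ) : ℂ) * e m) =
      (((l : ℝ) + k - (m + 1)) * e m : ℝ) := by push_cast; ring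
  have h2 : ((i : ℂ) * e m) = ((i * e m : ℝ) : ℂ) := by push_cast; rfl
  rw [h1, h2, Complex.ofReal_inj] at heq
  have h3 := (he m).1
  have h4 : (l : ℝ) + k - (m + 1) < 0 := by
    have : (l : ℝ) + k < m + 1 := by exact_mod_cast h
    linarith
  have h5 : 0 ≤ (i : ℝ) * e m := by positivity
  nlinarith

/-- and it does not vanish identically near the next antidiagonal -/
theorem f3_freq (he : Mesh e) {m l k : ℕ} (h : l + k = m + 1) :
    ∃ᶠ z in 𝓝 (cp e m l k), f3 e z ≠ 0 := by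
  have hz := cp_mem he h.le
  have hdiff : ContinuousAt (C3 e m) (cp e m l k) := by
    have h1 : DifferentiableOn ℂ (C3 e m) (ball 0 1) := by
      unfold C3
      refine DifferentiableOn.mul ?_ ((fam3 he).rem m).ip_diff
      exact un_diff (fun i hi => ⟨(be_mem he hi).1, by
        have := (be_mem he hi).2.1
        have := dd_pos m
        linarith⟩) differentiable_fst.differentiableOn fun z hz =>
          (norm_fst_le _).trans_lt (mem_ball_zero_iff.1 hz)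
    exact (h1.differentiableAt (isOpen_ball.mem_nhds hz)).continuousAt
  have hne : ∀ᶠ z in 𝓝 (cp e m l k), C3 e m z ≠ 0 := hdiff.eventually_ne (C3_ne he h.le)
  -- the path
  let γ : ℂ → ℂ × ℂ := fun t => Ph m (gp (e m) l k + (t, 0))
  have hγ : Continuous γ := (Ph_diff m).continuous.comp (by fun_prop)
  have hγ0 : γ 0 = cp e m l k := by
    change Ph m (gp (e m) l k + ((0 : ℂ), (0 : ℂ))) = Ph m (gp (e m) l k)
    have : ((0 : ℂ), (0 : ℂ)) = 0 := rfl
    rw [this, add_zero]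
  have hγt : Tendsto γ (𝓝[≠] 0) (𝓝 (cp e m l k)) := by
    rw [← hγ0]
    exact hγ.continuousAt.tendsto.mono_left nhdsWithin_le_nhds
  have hsmall : ∀ᶠ t : ℂ in 𝓝[≠] 0, t ∈ ball (0 : ℂ) (e m) :=
    nhdsWithin_le_nhds (ball_mem_nhds _ (he m).1)
  have hself : ∀ᶠ t : ℂ in 𝓝[≠] (0 : ℂ), t ≠ 0 := self_mem_nhdsWithin
  have hball : ∀ᶠ z in 𝓝 (cp e m l k), z ∈ ball (0 : ℂ × ℂ) 1 := isOpen_ball.mem_nhds hz
  refine hγt.frequently (Eventually.frequently ?_)
  filter_upwards [hγt.eventually hne, hγt.eventually hball, hsmall, hself] with t h1 h2 h3 h4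
  rw [f3_eq he m h2]
  refine mul_ne_zero (sf_ne_zero fun i _ heq => ?_) h1
  have h5 : xx m (γ t) + yy m (γ t) - ((m + 1 : ℕ) : ℂ) * e m = t := by
    change xx m (Ph m (gp (e m) l k + (t, 0))) + yy m (Ph m (gp (e m) l k + (t, 0))) -
      ((m + 1 : ℕ) : ℂ) * e m = t
    rw [xx_Ph, yy_Ph]
    unfold gp
    rw [← h]
    simp only [Prod.fst_add, Prod.snd_add, add_zero]
    push_cast
    ring
  rw [h5] at heq
  rcases Nat.eq_zero_or_pos i with rfl | hi
  · simp at heq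
    exact h4 heq
  · rw [mem_ball_zero_iff, heq, norm_mul, Complex.norm_natCast, Complex.norm_real,
      Real.norm_of_nonneg (he m).1.le] at h3
    have h6 : (1 : ℝ) ≤ i := by exact_mod_cast hi
    have h7 := (he m).1
    nlinarith

end Pool.Agent.X190.Hinf
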