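import Pool.Agent.X190.Hinf.Base

/-! A binomial identity for shifted factorials, and the linear algebra step. -/

set_option autoImplicit false

namespace Pool.Agent.X190.Hinf

open Filter Topology Metric Set

/-- shifted factorial -/
noncomputable def sf (a : ℕ) (x e : ℂ) : ℂ := ∏ i ∈ Finset.range a, (x - i * e)

theorem sf_zero (x e : ℂ) : sf 0 x e = 1 := by simp [sf]

theorem sf_succ (a : ℕ) (x e : ℂ) : sf (a + 1) x e = sf a x e * (x - a * e) := by
  simp [sf, Finset.prod_range_succ]

theorem sf_add (a b : ℕ) (x e : ℂ) : sf (a + b) x e = sf a x e * sf b (x - a * e) e := by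
  unfold sf
  rw [Finset.prod_range_add]
  congr 1
  refine Finset.prod_congr rfl fun i _ => ?_
  push_cast
  ring

theorem sf_diff {E : Type*} [NormedAddCommGroup E] [NormedSpace ℂ E] (a : ℕ) {f g : E → ℂ}
    (hf : Differentiable ℂ f) (hg : Differentiable ℂ g) :
    Differentiable ℂ fun z => sf a (f z) (g z) := by
  induction a with
  | zero => simp only [sf_zero]; exact differentiable_const 1
  | succ a ih =>
    simp only [sf_succ]
    exact ih.mul (hf.sub (hg.const_mul _))

/-- The grid polynomial times the antidiagonal factors lies in the ideal of the grid. -/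
theorem ident {m : ℕ} : ∀ r a b : ℕ, a + b + r + 1 = 2 * m →
    ∃ A B : ℂ × ℂ × ℂ → ℂ, Differentiable ℂ A ∧ Differentiable ℂ B ∧ ∀ x y e : ℂ,
      sf a x e * sf b y e * sf r (x + y - ((a + b : ℕ) : ℂ) * e) e =
        sf m x e * A (x, y, e) + sf m y e * B (x, y, e) := by
  intro r
  induction r with
  | zero =>
    intro a b h
    rcases Nat.lt_or_ge a m with ham | ham
    · obtain ⟨t, rfl⟩ : ∃ t, b = m + t := ⟨b - m, by omega⟩
      refine ⟨fun _ => 0, fun z => sf a z.1 z.2.2 * sf t (z.2.1 - m * z.2.2) z.2.2,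
        differentiable_const 0, ?_, fun x y e => ?_⟩
      · refine (sf_diff a (by fun_prop) (by fun_prop)).mul (sf_diff t ?_ ?_)
        · fun_prop
        · fun_prop
      · rw [sf_zero, sf_add]
        ring
    · obtain ⟨t, rfl⟩ : ∃ t, a = m + t := ⟨a - m, by omega⟩
      refine ⟨fun z => sf b z.2.1 z.2.2 * sf t (z.1 - m * z.2.2) z.2.2, fun _ => 0,
        ?_, differentiable_const 0, fun x y e => ?_⟩
      · refine (sf_diff b (by fun_prop) (by fun_prop)).mul (sf_diff t ?_ ?_)
        · fun_prop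
        · fun_prop
      · rw [sf_zero, sf_add]
        ring
  | succ r ih =>
    intro a b h
    obtain ⟨A1, B1, hA1, hB1, h1⟩ := ih (a + 1) b (by omega)
    obtain ⟨A2, B2, hA2, hB2, h2⟩ := ih a (b + 1) (by omega)
    refine ⟨fun z => A1 z + A2 z, fun z => B1 z + B2 z, hA1.add hA2, hB1.add hB2,
      fun x y e => ?_⟩
    have e1 : sf (r + 1) (x + y - ((a + b : ℕ) : ℂ) * e) e =
        (x + y - ((a + b : ℕ) : ℂ) * e) * sf r (x + y - ((a + b + 1 : ℕ) : ℂ) * e) e := by
      rw [add_comm r 1, sf_add]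
      have : sf 1 (x + y - ((a + b : ℕ) : ℂ) * e) e = x + y - ((a + b : ℕ) : ℂ) * e := by
        simp [sf]
      rw [this]
      congr 2
      push_cast
      ring
    have h1' := h1 x y e
    have h2' := h2 x y e
    have e2 : a + 1 + b = a + b + 1 := by ring
    have e3 : a + (b + 1) = a + b + 1 := by ring
    rw [e2] at h1'
    rw [e3] at h2'
    rw [sf_succ] at h1' h2'
    rw [e1]
    push_cast at h1' h2' ⊢
    linear_combination h1' + h2'

/-- evaluation at the next antidiagonal -/
theorem sf_eval_zero {a l : ℕ} (h : l < a) (e : ℂ) : sf a (l * e) e = 0 := by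
  unfold sf
  exact Finset.prod_eq_zero (Finset.mem_range.2 h) (sub_self _)

theorem sf_eval_self (a : ℕ) (e : ℂ) : sf a (a * e) e = (a.factorial : ℂ) * e ^ a := by
  unfold sf
  have h1 : ∀ i ∈ Finset.range a, ((a : ℂ) * e - i * e) = ((a - i : ℕ) : ℂ) * e := by
    intro i hi
    rw [Nat.cast_sub (Finset.mem_range.1 hi).le]
    ring
  rw [Finset.prod_congr rfl h1, Finset.prod_mul_distrib, Finset.prod_const, Finset.card_range]
  congr 1
  have h2 : ∏ i ∈ Finset.range a, (((a - i : ℕ)) : ℂ) = ((∏ i ∈ Finset.range a, (a - i) : ℕ) : ℂ) := by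
    push_cast
    rfl
  rw [h2]
  congr 1
  rw [← Finset.prod_range_reflect]
  have h3 : ∀ i ∈ Finset.range a, a - (a - 1 - i) = i + 1 := by
    intro i hi
    have := Finset.mem_range.1 hi
    omega
  rw [Finset.prod_congr rfl h3, Finset.prod_range_add_one_eq_factorial]

theorem sf_ne_zero {r : ℕ} {x e : ℂ} (h : ∀ i < r, x ≠ i * e) : sf r x e ≠ 0 := by
  unfold sf
  exact Finset.prod_ne_zero_iff.2 fun i hi => sub_ne_zero.2 (h i (Finset.mem_range.1 hi))

/-- Fewer than `n` vectors in `n`-space are annihilated by a functional with coefficients of modulus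
at most one, one of them equal to one. -/
theorem exists_functional {k n : ℕ} (h : k < n) (T : Fin k → Fin n → ℂ) :
    ∃ (w : Fin n → ℂ) (l : Fin n), w l = 1 ∧ (∀ j, ‖w j‖ ≤ 1) ∧ ∀ i, ∑ j, w j * T i j = 0 := by
  have h1 : ∃ w : Fin n → ℂ, w ≠ 0 ∧ ∀ i, ∑ j, w j * T i j = 0 := by
    let f : (Fin n → ℂ) →ₗ[ℂ] (Fin k → ℂ) :=
      { toFun := fun w i => ∑ j, w j * T i j
        map_add' := fun u v => by
          funext i
          simp only [Pi.add_apply, add_mul, Finset.sum_add_distrib]
        map_smul' := fun r v => by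
          funext i
          simp only [Pi.smul_apply, smul_eq_mul, RingHom.id_apply, Finset.mul_sum, mul_assoc] }
    have h2 : LinearMap.ker f ≠ ⊥ := by
      apply LinearMap.ker_ne_bot_of_finrank_lt
      simpa using h
    obtain ⟨w, hw, hw0⟩ := (Submodule.ne_bot_iff _).1 h2
    exact ⟨w, hw0, fun i => congrFun (LinearMap.mem_ker.1 hw) i⟩
  obtain ⟨w, hw0, hw⟩ := h1
  have hne : Nonempty (Fin n) := ⟨⟨0, by omega⟩⟩
  obtain ⟨l, hl⟩ := Finite.exists_max fun j => ‖w j‖
  have hwl : w l ≠ 0 := by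
    intro h3
    apply hw0
    funext j
    have := hl j
    rw [h3, norm_zero] at this
    exact norm_le_zero_iff.1 this
  refine ⟨fun j => (w l)⁻¹ * w j, l, inv_mul_cancel₀ hwl, fun j => ?_, fun i => ?_⟩
  · rw [norm_mul, norm_inv, inv_mul_le_iff₀ (norm_pos_iff.2 hwl), mul_one]
    exact hl j
  · have := hw i
    rw [← mul_zero (w l)⁻¹, ← this, Finset.mul_sum]
    simp only [mul_assoc]

end Pool.Agent.X190.Hinf
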