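import Pool.Agent.X190.Hinf.Series

/-! The ring of bounded holomorphic functions and the main theorem. -/

set_option autoImplicit false

namespace Pool.Agent.X190.Hinf

open Filter Topology Metric Set

/-- The ring `H^∞(Ω)` of bounded holomorphic functions `Ω → ℂ`, for `Ω ⊆ ℂ²`, with pointwise
operations. -/
def HInf (Ω : Set (ℂ × ℂ)) : Subalgebra ℂ (Ω → ℂ) where
  carrier := {f | (∃ F : ℂ × ℂ → ℂ, DifferentiableOn ℂ F Ω ∧ ∀ z : Ω, f z = F z) ∧
    ∃ C : ℝ, ∀ z : Ω, ‖f z‖ ≤ C}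
  mul_mem' := by
    rintro f g ⟨⟨F, hF, hfF⟩, C, hC⟩ ⟨⟨G, hG, hgG⟩, D, hD⟩
    refine ⟨⟨fun z => F z * G z, hF.mul hG, fun z => ?_⟩, |C| * |D|, fun z => ?_⟩
    · rw [Pi.mul_apply, hfF, hgG]
    · rw [Pi.mul_apply, norm_mul]
      exact mul_le_mul ((hC z).trans (le_abs_self _)) ((hD z).trans (le_abs_self _))
        (norm_nonneg _) (abs_nonneg _)
  add_mem' := by
    rintro f g ⟨⟨F, hF, hfF⟩, C, hC⟩ ⟨⟨G, hG, hgG⟩, D, hD⟩
    refine ⟨⟨fun z => F z + G z, hF.add hG, fun z => ?_⟩, C + D, fun z => ?_⟩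
    · rw [Pi.add_apply, hfF, hgG]
    · exact (norm_add_le _ _).trans (add_le_add (hC z) (hD z))
  algebraMap_mem' := fun r => ⟨⟨fun _ => r, differentiableOn_const r, fun _ => rfl⟩, ‖r‖,
    fun _ => le_rfl⟩

variable {Ω : Set (ℂ × ℂ)}

/-- restriction -/
noncomputable def mk (F : ℂ × ℂ → ℂ) (hF : DifferentiableOn ℂ F Ω) (C : ℝ)
    (hC : ∀ z ∈ Ω, ‖F z‖ ≤ C) : HInf Ω :=
  ⟨fun z => F z, ⟨F, hF, fun _ => rfl⟩, C, fun z => hC z z.2⟩

theorem mk_apply (F : ℂ × ℂ → ℂ) (hF : DifferentiableOn ℂ F Ω) (C : ℝ)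
    (hC : ∀ z ∈ Ω, ‖F z‖ ≤ C) (z : Ω) : (mk F hF C hC : Ω → ℂ) z = F z := rfl

/-- extension by an arbitrary choice -/
noncomputable def ex (f : HInf Ω) : ℂ × ℂ → ℂ := f.2.1.choose

theorem ex_diff (f : HInf Ω) : DifferentiableOn ℂ (ex f) Ω := f.2.1.choose_spec.1

theorem ex_eq (f : HInf Ω) {z : ℂ × ℂ} (hz : z ∈ Ω) : ex f z = (f : Ω → ℂ) ⟨z, hz⟩ :=
  (f.2.1.choose_spec.2 ⟨z, hz⟩).symm

theorem ex_mk (F : ℂ × ℂ → ℂ) (hF : DifferentiableOn ℂ F Ω) (C : ℝ)
    (hC : ∀ z ∈ Ω, ‖F z‖ ≤ C) {z : ℂ × ℂ} (hz : z ∈ Ω) : ex (mk F hF C hC) z = F z :=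
  ex_eq _ hz

theorem ex_mul (f g : HInf Ω) {z : ℂ × ℂ} (hz : z ∈ Ω) : ex (f * g) z = ex f z * ex g z := by
  rw [ex_eq _ hz, ex_eq _ hz, ex_eq _ hz]; rfl

theorem ex_add (f g : HInf Ω) {z : ℂ × ℂ} (hz : z ∈ Ω) : ex (f + g) z = ex f z + ex g z := by
  rw [ex_eq _ hz, ex_eq _ hz, ex_eq _ hz]; rfl

theorem ex_sum {ι : Type*} (s : Finset ι) (f : ι → HInf Ω) {z : ℂ × ℂ} (hz : z ∈ Ω) :
    ex (∑ i ∈ s, f i) z = ∑ i ∈ s, ex (f i) z := by
  rw [ex_eq _ hz]
  have h1 : ((∑ i ∈ s, f i : HInf Ω) : Ω → ℂ) = ∑ i ∈ s, ((f i : HInf Ω) : Ω → ℂ) := by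
    exact map_sum (HInf Ω).subtype f s
  rw [h1, Finset.sum_apply]
  exact Finset.sum_congr rfl fun i _ => (ex_eq _ hz).symm

theorem ex_bound (f : HInf Ω) : ∃ C : ℝ, 0 ≤ C ∧ ∀ z ∈ Ω, ‖ex f z‖ ≤ C := by
  obtain ⟨C, hC⟩ := f.2.2
  refine ⟨|C|, abs_nonneg C, fun z hz => ?_⟩
  rw [ex_eq f hz]
  exact (hC ⟨z, hz⟩).trans (le_abs_self C)

theorem exists_radius (hΩ : IsOpen Ω) (hdisc : ∀ t : ℂ, ‖t‖ < 1 → (t, (0 : ℂ)) ∈ Ω) (m : ℕ) :
    ∃ R : ℝ, 0 < R ∧ ∀ w ∈ ball (0 : ℂ × ℂ) R, Ph m w ∈ Ω := by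
  have h1 : Ph m 0 ∈ Ω := by
    have h2 : Ph m 0 = (((aa m / cc m : ℝ) : ℂ), (0 : ℂ)) := by
      have hc : (cc m : ℂ) ≠ 0 := by exact_mod_cast (cc_pos m).ne'
      unfold Ph
      ext
      · simp only [Prod.fst_zero, Prod.snd_zero, add_zero]
        push_cast
        field_simp
      · simp
    rw [h2]
    apply hdisc
    have h3 := cc_pos m
    have h4 := dd_le m
    have h5 := dd_pos m
    have h6 := tt_le m
    have h7 : 0 ≤ aa m / cc m := div_nonneg (by unfold aa; linarith) h3.le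
    rw [Complex.norm_real, Real.norm_of_nonneg h7, div_lt_one h3]
    unfold aa cc
    linarith
  have h2 : Ph m ⁻¹' Ω ∈ 𝓝 (0 : ℂ × ℂ) :=
    (Ph_diff m).continuous.continuousAt.preimage_mem_nhds (hΩ.mem_nhds h1)
  obtain ⟨R, hR, h3⟩ := Metric.mem_nhds_iff.1 h2
  exact ⟨R, hR, fun w hw => h3 hw⟩

theorem gp_norm {e : ℝ} (he : 0 < e) {l k n : ℕ} (h : l + k ≤ n) : ‖gp e l k‖ ≤ n * e := by
  have h1 : (l : ℝ) ≤ n := by exact_mod_cast (Nat.le_add_right l k).trans h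
  have h2 : (k : ℝ) ≤ n := by exact_mod_cast (Nat.le_add_left k l).trans h
  unfold gp
  rw [Prod.norm_def]
  refine max_le ?_ ?_
  · simp only
    rw [norm_mul, Complex.norm_natCast, Complex.norm_real, Real.norm_of_nonneg he.le]
    gcongr
  · simp only
    rw [norm_mul, Complex.norm_natCast, Complex.norm_real, Real.norm_of_nonneg he.le]
    gcongr

/-- **Main theorem.** If `Ω` is open, contained in the unit bidisc and contains the disc
`{(t, 0) : |t| < 1}`, then `H^∞(Ω)` has two finitely generated ideals whose intersection is not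
finitely generated. -/
theorem main (hΩ : IsOpen Ω) (hsub : Ω ⊆ ball 0 1)
    (hdisc : ∀ t : ℂ, ‖t‖ < 1 → (t, (0 : ℂ)) ∈ Ω) :
    ∃ I J : Ideal (HInf Ω), I.FG ∧ J.FG ∧ ¬ (I ⊓ J).FG := by
  choose R hR hPh using exists_radius hΩ hdisc
  -- radii
  let η : ℕ → ℝ := fun m => R m / (4 * (m + 2))
  have hη : ∀ m : ℕ, 0 < η m := fun m => div_pos (hR m) (by positivity)
  have hηR : ∀ m : ℕ, 4 * ((m : ℝ) + 2) * η m = R m := by
    intro m
    simp only [η]
    field_simp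
  -- the mesh
  have hex : ∀ m : ℕ, ∃ x : ℝ, 0 < x ∧ 8 * ((m : ℝ) + 1) * x ≤ tt m * dd m ∧
      ((m : ℝ) + 1) * x ≤ η m ∧
      ((m : ℝ) + 1) ^ 2 * ((m : ℝ) + 2) * x ≤ de m * η m ^ (m + 2) := by
    intro m
    have h1 : ∀ (A Z : ℝ), 0 < A → 0 < Z → ∀ᶠ x : ℝ in 𝓝[>] 0, A * x ≤ Z := by
      intro A Z hA hZ
      have h2 : ∀ᶠ x : ℝ in 𝓝[>] 0, x < Z / A :=
        nhdsWithin_le_nhds (eventually_lt_nhds (div_pos hZ hA))
      filter_upwards [h2] with x hx
      rw [lt_div_iff₀ hA] at hx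
      linarith
    have h3 : ∀ᶠ x : ℝ in 𝓝[>] 0, 0 < x := self_mem_nhdsWithin
    have h4 := h1 (8 * ((m : ℝ) + 1)) (tt m * dd m) (by positivity)
      (mul_pos (tt_pos m) (dd_pos m))
    have h5 := h1 ((m : ℝ) + 1) (η m) (by positivity) (hη m)
    have h6 := h1 (((m : ℝ) + 1) ^ 2 * ((m : ℝ) + 2)) (de m * η m ^ (m + 2)) (by positivity)
      (mul_pos (de_pos m) (pow_pos (hη m) _))
    obtain ⟨x, a, b, c, d⟩ := (h3.and (h4.and (h5.and h6))).exists
    exact ⟨x, a, b, c, d⟩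
  choose e he0 he1 he2 he3 using hex
  have he : Mesh e := fun m => ⟨he0 m, he1 m⟩
  -- cluster points
  have hgp : ∀ {m l k : ℕ}, l + k ≤ m + 1 → ‖gp (e m) l k‖ ≤ η m := by
    intro m l k h
    have := gp_norm (he0 m) h
    push_cast at this
    exact this.trans (he2 m)
  have hgpR : ∀ {m l k : ℕ}, l + k ≤ m + 1 → gp (e m) l k ∈ ball (0 : ℂ × ℂ) (R m) := by
    intro m l k h
    rw [mem_ball_zero_iff]
    refine (hgp h).trans_lt ?_
    rw [← hηR m]
    have h1 := hη m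
    have h2 : (0 : ℝ) ≤ m := Nat.cast_nonneg m
    nlinarith
  have hcp : ∀ {m l k : ℕ}, l + k ≤ m + 1 → cp e m l k ∈ Ω := fun h => hPh _ _ (hgpR h)
  -- generators
  have hd1 := (fam1 he).ip_diff
  have hd2 := (fam2 he).ip_diff
  have hd3 := (fam3 he).ip_diff
  let φ1 : HInf Ω := mk (f1 e) (hd1.mono hsub) 1 fun z hz => ip_le (fam1 he) (hsub hz)
  let φ2 : HInf Ω := mk (f2 e) (hd2.mono hsub) 1 fun z hz => ip_le (fam2 he) (hsub hz)
  let φ3 : HInf Ω := mk (f3 e) (hd3.mono hsub) 1 fun z hz => ip_le (fam3 he) (hsub hz)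
  have hφ1 : ∀ {z}, z ∈ Ω → ex φ1 z = f1 e z := fun hz => ex_mk _ _ _ _ hz
  have hφ2 : ∀ {z}, z ∈ Ω → ex φ2 z = f2 e z := fun hz => ex_mk _ _ _ _ hz
  have hφ3 : ∀ {z}, z ∈ Ω → ex φ3 z = f3 e z := fun hz => ex_mk _ _ _ _ hz
  refine ⟨Ideal.span {φ1, φ2}, Ideal.span {φ3}, ?_, ?_, ?_⟩
  · exact Submodule.fg_span (Set.toFinite _)
  · exact Submodule.fg_span (Set.toFinite _)
  intro hFG
  obtain ⟨k, v, hv⟩ := Submodule.fg_iff_exists_fin_generating_family.1 hFG
  have hvmem : ∀ i, v i ∈ Ideal.span {φ1, φ2} ⊓ Ideal.span {φ3} := by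
    intro i
    rw [← hv]
    exact Submodule.subset_span ⟨i, rfl⟩
  have hh1 : ∀ i, ∃ a, a * φ3 = v i := fun i => Ideal.mem_span_singleton'.1 (hvmem i).2
  choose h hh using hh1
  have hh2 : ∀ i, ∃ a b, a * φ1 + b * φ2 = v i := fun i => Ideal.mem_span_pair.1 (hvmem i).1
  -- the generators vanish on the triangles
  have hzero : ∀ i, ∀ {m l k : ℕ}, l + k < m + 1 → ex (h i) (cp e m l k) = 0 := by
    intro i m l k hlk
    have hz := hcp hlk.le
    obtain ⟨a, b, hab⟩ := hh2 i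
    have h1 : ex (v i) (cp e m l k) = 0 := by
      rw [← hab, ex_add _ _ hz, ex_mul _ _ hz, ex_mul _ _ hz, hφ1 hz, hφ2 hz,
        f1_zero he hlk.le (by omega), f2_zero he hlk.le (by omega)]
      ring
    rw [← hh i, ex_mul _ _ hz, hφ3 hz] at h1
    exact (mul_eq_zero.1 h1).resolve_right (f3_ne he hlk)
  -- functionals
  have hfun : ∀ m : ℕ, ∃ (w : Fin (m + 2) → ℂ) (l : Fin (m + 2)), w l = 1 ∧ (∀ j, ‖w j‖ ≤ 1) ∧
      (k < m + 2 → ∀ i : Fin k, ∑ j, w j * ex (h i) (cp e m j (m + 1 - j)) = 0) := by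
    intro m
    by_cases hk : k < m + 2
    · obtain ⟨w, l, h1, h2, h3⟩ := exists_functional hk
        (fun i j => ex (h i) (cp e m j (m + 1 - j)))
      exact ⟨w, l, h1, h2, fun _ => h3⟩
    · exact ⟨fun _ => 1, 0, rfl, fun _ => by simp, fun h => absurd h hk⟩
  choose w l hw1 hw2 hw3 using hfun
  have hl : ∀ m, (l m : ℕ) ≤ m + 1 := fun m => by have := (l m).2; omega
  -- the special element
  let H : ℂ × ℂ → ℂ := ser fun m => Hinf.hh e m (l m)
  have bh := fun m z (hz : z ∈ ball (0 : ℂ × ℂ) 1) => hh_le he (hl m) hz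
  have ba := fun m z (hz : z ∈ ball (0 : ℂ × ℂ) 1) => ra_le he (hl m) hz
  have bb := fun m z (hz : z ∈ ball (0 : ℂ × ℂ) 1) => rb_le he (hl m) hz
  have hHd : DifferentiableOn ℂ H (ball 0 1) := ser_diff (fun m => hh_diff he m _) bh
  have hAd : DifferentiableOn ℂ (ser fun m => ra e m (l m)) (ball 0 1) :=
    ser_diff (fun m => ra_diff he m _) ba
  have hBd : DifferentiableOn ℂ (ser fun m => rb e m (l m)) (ball 0 1) :=
    ser_diff (fun m => rb_diff he m _) bb
  let ψ : HInf Ω := mk H (hHd.mono hsub) 2 fun z hz => ser_le bh (hsub hz)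
  let ψa : HInf Ω := mk _ (hAd.mono hsub) 2 fun z hz => ser_le ba (hsub hz)
  let ψb : HInf Ω := mk _ (hBd.mono hsub) 2 fun z hz => ser_le bb (hsub hz)
  have hψ : ∀ {z}, z ∈ Ω → ex ψ z = H z := fun hz => ex_mk _ _ _ _ hz
  have hrel : ψ * φ3 = ψa * φ1 + ψb * φ2 := by
    apply Subtype.ext
    funext z
    have := ser_rel he hl (hsub z.2)
    change H z * f3 e z = ser (fun m => ra e m (l m)) z * f1 e z +
      ser (fun m => rb e m (l m)) z * f2 e z
    rw [this]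
    ring
  have hmem : ψ * φ3 ∈ Submodule.span (HInf Ω) (Set.range v) := by
    rw [hv]
    refine ⟨?_, ?_⟩
    · rw [hrel]
      exact Ideal.mem_span_pair.2 ⟨ψa, ψb, rfl⟩
    · exact Ideal.mem_span_singleton'.2 ⟨ψ, rfl⟩
  obtain ⟨c, hc⟩ := (Submodule.mem_span_range_iff_exists_fun (HInf Ω)).1 hmem
  -- equality off the zero set of the third function
  have heq : ∀ {z}, z ∈ Ω → f3 e z ≠ 0 → H z = ∑ i, ex (c i) z * ex (h i) z := by
    intro z hz hne
    have h1 : ex (∑ i, c i • v i) z = ex (ψ * φ3) z := by rw [hc]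
    rw [ex_mul _ _ hz, hψ hz, hφ3 hz, ex_sum _ _ hz] at h1
    have h2 : ∀ i, ex (c i • v i) z = ex (c i) z * ex (h i) z * f3 e z := by
      intro i
      rw [smul_eq_mul, ex_mul _ _ hz, ← hh i, ex_mul _ _ hz, hφ3 hz]
      ring
    simp only [h2] at h1
    rw [← Finset.sum_mul] at h1
    exact (mul_right_cancel₀ hne h1).symm
  -- equality at the next antidiagonal
  have heq' : ∀ {m l' k' : ℕ}, l' + k' = m + 1 →
      H (cp e m l' k') = ∑ i, ex (c i) (cp e m l' k') * ex (h i) (cp e m l' k') := by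
    intro m l' k' hlk
    have hz := hcp hlk.le
    have hcont : ContinuousAt (fun z => H z - ∑ i, ex (c i) z * ex (h i) z) (cp e m l' k') := by
      have h1 : DifferentiableOn ℂ (fun z => H z - ∑ i, ex (c i) z * ex (h i) z) Ω :=
        (hHd.mono hsub).sub (DifferentiableOn.fun_sum fun i _ => (ex_diff (c i)).mul (ex_diff (h i)))
      exact (h1.differentiableAt (hΩ.mem_nhds hz)).continuousAt
    have hfr : ∃ᶠ z in 𝓝 (cp e m l' k'), H z - ∑ i, ex (c i) z * ex (h i) z = 0 := by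
      refine ((f3_freq he hlk).and_eventually (hΩ.mem_nhds hz)).mono ?_
      rintro z ⟨h1, h2⟩
      rw [heq h2 h1, sub_self]
    have h3 : H (cp e m l' k') - ∑ i, ex (c i) (cp e m l' k') * ex (h i) (cp e m l' k') = 0 := by
      by_contra hne
      exact hfr (hcont.eventually_ne hne)
    exact sub_eq_zero.1 h3
  -- bounds
  choose Cc hCc0 hCc using fun i => ex_bound (c i)
  choose Ch hCh0 hCh using fun i => ex_bound (h i)
  set M : ℝ := 1 + ∑ i, (Cc i + Ch i) with hM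
  have hMc : ∀ i, Cc i ≤ M := by
    intro i
    have h1 : Cc i + Ch i ≤ ∑ i, (Cc i + Ch i) :=
      Finset.single_le_sum (f := fun i => Cc i + Ch i)
        (fun j _ => add_nonneg (hCc0 j) (hCh0 j)) (Finset.mem_univ i)
    have := hCh0 i
    linarith
  have hMh : ∀ i, Ch i ≤ M := by
    intro i
    have h1 : Cc i + Ch i ≤ ∑ i, (Cc i + Ch i) :=
      Finset.single_le_sum (f := fun i => Cc i + Ch i)
        (fun j _ => add_nonneg (hCc0 j) (hCh0 j)) (Finset.mem_univ i)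
    have := hCc0 i
    linarith
  have hM1 : 1 ≤ M := by
    have : 0 ≤ ∑ i, (Cc i + Ch i) := Finset.sum_nonneg fun j _ => add_nonneg (hCc0 j) (hCh0 j)
    linarith
  -- local coordinates
  have hloc : ∀ (u : HInf Ω) (m : ℕ), DifferentiableOn ℂ (fun w => ex u (Ph m w)) (ball 0 (R m)) :=
    fun u m => (ex_diff u).comp (Ph_diff m).differentiableOn (hPh m)
  have hη4 : ∀ m : ℕ, 2 * ((m + 1 : ℕ) : ℝ) * η m < R m := by
    intro m
    rw [← hηR m]
    have h1 := hη m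
    have h2 : (0 : ℝ) ≤ m := Nat.cast_nonneg m
    push_cast
    nlinarith
  have hη2 : ∀ m : ℕ, ‖(0 : ℂ × ℂ)‖ < R m - 2 * η m := by
    intro m
    rw [norm_zero]
    have h1 := hη4 m
    have h2 := hη m
    have h3 : (0 : ℝ) ≤ m := Nat.cast_nonneg m
    push_cast at h1
    nlinarith
  have hLip : ∀ i, ∀ {m l' k' : ℕ}, l' + k' ≤ m + 1 →
      ‖ex (c i) (cp e m l' k') - ex (c i) (Ph m 0)‖ ≤ M / η m * (((m : ℝ) + 1) * e m) := by
    intro i m l' k' hlk
    have h1 := lip (hloc (c i) m) (M := M) (fun w hw => (hCc i _ (hPh m w hw)).trans (hMc i))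
      (hη m) (hη2 m) (hgp hlk)
    rw [zero_add] at h1
    refine h1.trans ?_
    have h2 := gp_norm (he0 m) hlk
    push_cast at h2
    have h3 := hη m
    gcongr
  have hGrid : ∀ i, ∀ {m l' k' : ℕ}, l' + k' = m + 1 →
      ‖ex (h i) (cp e m l' k')‖ ≤ M * (e m / η m) ^ (m + 1) := by
    intro i m l' k' hlk
    refine grid (hloc (h i) m) (fun w hw => (hCh i _ (hPh m w hw)).trans (hMh i)) (hη m) (he0 m)
      ?_ (hη4 m) (fun a b hab => hzero i hab) l' k' hlk
    have h1 := he2 m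
    have h2 := he0 m
    have h3 : (0 : ℝ) ≤ m := Nat.cast_nonneg m
    nlinarith
  -- the inequality at stage `m`
  have key : ∀ m : ℕ, k < m + 2 → 9 / 16 ≤ (k : ℝ) * M ^ 2 / (m + 1) := by
    intro m hkm
    have hm0 : (0 : ℝ) ≤ m := Nat.cast_nonneg m
    have hlk : ∀ j : Fin (m + 2), (j : ℕ) + (m + 1 - j) = m + 1 := fun j => by
      have := j.2; omega
    -- left hand side
    have hL1 : ∑ j : Fin (m + 2), w m j * H (cp e m j (m + 1 - j)) =
        (de m : ℂ) * Hinf.hh e m (l m) (cp e m (l m) (m + 1 - l m)) := by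
      rw [Finset.sum_eq_single (l m)]
      · rw [hw1, one_mul]
        exact ser_cp he (hlk (l m))
      · intro j _ hj
        have h1 : H (cp e m j (m + 1 - j)) = 0 := by
          change ser _ _ = 0
          rw [ser_cp he (hlk j), hh_cp_ne e (hlk j) (fun h => hj (Fin.ext h)), mul_zero]
        rw [h1, mul_zero]
      · intro h; exact absurd (Finset.mem_univ _) h
    have hL2 : de m * (9 / 16 * e m ^ (m + 1)) ≤
        ‖∑ j : Fin (m + 2), w m j * H (cp e m j (m + 1 - j))‖ := by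
      rw [hL1, norm_mul, Complex.norm_real, Real.norm_of_nonneg (de_pos m).le]
      have := hh_cp_self he (hlk (l m))
      have h2 := de_pos m
      gcongr
    -- right hand side
    have hR1 : ∑ j : Fin (m + 2), w m j * H (cp e m j (m + 1 - j)) =
        ∑ j : Fin (m + 2), ∑ i, w m j *
          ((ex (c i) (cp e m j (m + 1 - j)) - ex (c i) (Ph m 0)) *
            ex (h i) (cp e m j (m + 1 - j))) := by
      have h1 : ∑ j : Fin (m + 2), ∑ i, w m j * (ex (c i) (Ph m 0) *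
          ex (h i) (cp e m j (m + 1 - j))) = 0 := by
        rw [Finset.sum_comm]
        refine Finset.sum_eq_zero fun i _ => ?_
        have h2 := hw3 m hkm i
        calc _ = ex (c i) (Ph m 0) * ∑ j : Fin (m + 2), w m j *
              ex (h i) (cp e m j (m + 1 - j)) := by
              rw [Finset.mul_sum]
              exact Finset.sum_congr rfl fun j _ => by ring
          _ = 0 := by rw [h2, mul_zero]
      have h2 : ∀ j : Fin (m + 2), w m j * H (cp e m j (m + 1 - j)) =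
          (∑ i, w m j * ((ex (c i) (cp e m j (m + 1 - j)) - ex (c i) (Ph m 0)) *
            ex (h i) (cp e m j (m + 1 - j)))) +
          ∑ i, w m j * (ex (c i) (Ph m 0) * ex (h i) (cp e m j (m + 1 - j))) := by
        intro j
        rw [heq' (hlk j), Finset.mul_sum, ← Finset.sum_add_distrib]
        exact Finset.sum_congr rfl fun i _ => by ring
      rw [Finset.sum_congr rfl fun j _ => h2 j, Finset.sum_add_distrib, h1, add_zero]
    have hR2 : ‖∑ j : Fin (m + 2), w m j * H (cp e m j (m + 1 - j))‖ ≤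
        ((m : ℝ) + 2) * (k * ((M / η m * (((m : ℝ) + 1) * e m)) *
          (M * (e m / η m) ^ (m + 1)))) := by
      rw [hR1]
      have h1 : ∀ j : Fin (m + 2), ‖∑ i, w m j *
          ((ex (c i) (cp e m j (m + 1 - j)) - ex (c i) (Ph m 0)) *
            ex (h i) (cp e m j (m + 1 - j)))‖ ≤ k * ((M / η m * (((m : ℝ) + 1) * e m)) *
          (M * (e m / η m) ^ (m + 1))) := by
        intro j
        refine (norm_sum_le _ _).trans ?_
        have h2 : ∀ i : Fin k, ‖w m j *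
          ((ex (c i) (cp e m j (m + 1 - j)) - ex (c i) (Ph m 0)) *
            ex (h i) (cp e m j (m + 1 - j)))‖ ≤ (M / η m * (((m : ℝ) + 1) * e m)) *
          (M * (e m / η m) ^ (m + 1)) := by
          intro i
          rw [norm_mul, norm_mul]
          have h3 := hLip i (hlk j).le
          have h4 := hGrid i (hlk j)
          have h5 := hw2 m j
          calc _ ≤ 1 * (‖ex (c i) (cp e m j (m + 1 - j)) - ex (c i) (Ph m 0)‖ *
                ‖ex (h i) (cp e m j (m + 1 - j))‖) := by gcongr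
            _ ≤ 1 * ((M / η m * (((m : ℝ) + 1) * e m)) * (M * (e m / η m) ^ (m + 1))) := by
                gcongr
                have := hη m
                have := he0 m
                positivity
            _ = _ := one_mul _
        calc _ ≤ ∑ _i : Fin k, (M / η m * (((m : ℝ) + 1) * e m)) *
            (M * (e m / η m) ^ (m + 1)) := Finset.sum_le_sum fun i _ => h2 i
          _ = _ := by
              rw [Finset.sum_const, Finset.card_univ, Fintype.card_fin, nsmul_eq_mul]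
      refine (norm_sum_le _ _).trans ?_
      calc _ ≤ ∑ _j : Fin (m + 2), (k : ℝ) * ((M / η m * (((m : ℝ) + 1) * e m)) *
            (M * (e m / η m) ^ (m + 1))) := Finset.sum_le_sum fun j _ => h1 j
        _ = _ := by
            rw [Finset.sum_const, Finset.card_univ, Fintype.card_fin, nsmul_eq_mul]
            push_cast
            ring
    have hfin := hL2.trans hR2
    -- simplify
    have hem : 0 < e m ^ (m + 1) := pow_pos (he0 m) _
    have hηm := hη m
    have hdm := de_pos m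
    have h1 : ((m : ℝ) + 2) * (k * ((M / η m * (((m : ℝ) + 1) * e m)) *
          (M * (e m / η m) ^ (m + 1)))) =
        (k * M ^ 2) * ((((m : ℝ) + 1) * (m + 2) * e m) / η m ^ (m + 2)) * e m ^ (m + 1) := by
      rw [div_pow, pow_succ (η m) (m + 1)]
      field_simp
    rw [h1] at hfin
    have h2 : de m * (9 / 16) ≤
        (k * M ^ 2) * ((((m : ℝ) + 1) * (m + 2) * e m) / η m ^ (m + 2)) := by
      have h3 : de m * (9 / 16) * e m ^ (m + 1) ≤
        (k * M ^ 2) * ((((m : ℝ) + 1) * (m + 2) * e m) / η m ^ (m + 2)) * e m ^ (m + 1) := by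
        calc _ = de m * (9 / 16 * e m ^ (m + 1)) := by ring
          _ ≤ _ := hfin
      exact le_of_mul_le_mul_right h3 hem
    have h4 : (((m : ℝ) + 1) * (m + 2) * e m) / η m ^ (m + 2) ≤ de m / (m + 1) := by
      rw [div_le_div_iff₀ (pow_pos hηm _) (by positivity)]
      calc ((m : ℝ) + 1) * (m + 2) * e m * (m + 1) = ((m : ℝ) + 1) ^ 2 * ((m : ℝ) + 2) * e m := by
            ring
        _ ≤ _ := he3 m
    have h5 : de m * (9 / 16) ≤ de m * ((k : ℝ) * M ^ 2 / (m + 1)) := by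
      calc de m * (9 / 16) ≤ (k * M ^ 2) * (de m / (m + 1)) := h2.trans (by gcongr)
        _ = _ := by ring
    exact le_of_mul_le_mul_left h5 hdm
  -- contradiction
  obtain ⟨N, hN⟩ := exists_nat_gt (2 * ((k : ℝ) * M ^ 2))
  have h1 := key (N + k) (by omega)
  rw [le_div_iff₀ (by positivity)] at h1
  push_cast at h1
  have h2 : (0 : ℝ) ≤ k := Nat.cast_nonneg k
  have h3 : (0 : ℝ) ≤ (k : ℝ) * M ^ 2 := by positivity
  nlinarith

/-- the unit bidisc -/
def bidisc : Set (ℂ × ℂ) := {z | ‖z.1‖ < 1 ∧ ‖z.2‖ < 1}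

/-- the unit ball -/
def unitBall : Set (ℂ × ℂ) := {z | ‖z.1‖ ^ 2 + ‖z.2‖ ^ 2 < 1}

theorem bidisc_eq : bidisc = ball 0 1 := by
  ext z
  rw [mem_ball_zero_iff, Prod.norm_def, max_lt_iff]
  rfl

theorem main_bidisc : ∃ I J : Ideal (HInf bidisc), I.FG ∧ J.FG ∧ ¬ (I ⊓ J).FG := by
  refine main ?_ ?_ ?_
  · rw [bidisc_eq]; exact isOpen_ball
  · rw [bidisc_eq]
  · intro t ht
    exact ⟨ht, by simp⟩

theorem main_ball : ∃ I J : Ideal (HInf unitBall), I.FG ∧ J.FG ∧ ¬ (I ⊓ J).FG := by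
  refine main ?_ ?_ ?_
  · exact isOpen_lt (by fun_prop) continuous_const
  · intro z hz
    have hz' : ‖z.1‖ ^ 2 + ‖z.2‖ ^ 2 < 1 := hz
    rw [← bidisc_eq]
    have h1 := norm_nonneg z.1
    have h2 := norm_nonneg z.2
    constructor
    · nlinarith
    · nlinarith
  · intro t ht
    change ‖t‖ ^ 2 + ‖(0 : ℂ)‖ ^ 2 < 1
    rw [norm_zero]
    have h1 := norm_nonneg t
    nlinarith

end Pool.Agent.X190.Hinf
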