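import Pool.Agent.X190.Hinf.Points

/-! The special elements of the colon ideal. -/

set_option autoImplicit false

namespace Pool.Agent.X190.Hinf

open Filter Topology Metric Set

/-- the identity at stage `m` -/
theorem ident' (m l : ℕ) (h : l ≤ m + 1) :
    ∃ A B : ℂ × ℂ × ℂ → ℂ, Differentiable ℂ A ∧ Differentiable ℂ B ∧ ∀ x y e : ℂ,
      sf l x e * sf (m + 1 - l) y e * sf m (x + y - ((m + 1 : ℕ) : ℂ) * e) e =
        sf (m + 1) x e * A (x, y, e) + sf (m + 1) y e * B (x, y, e) := by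
  obtain ⟨A, B, hA, hB, hAB⟩ := ident (m := m + 1) m l (m + 1 - l) (by omega)
  refine ⟨A, B, hA, hB, fun x y e => ?_⟩
  have := hAB x y e
  rwa [show l + (m + 1 - l) = m + 1 by omega] at this

/-- cofactor polynomials -/
noncomputable def pA (m l : ℕ) : ℂ × ℂ × ℂ → ℂ :=
  if h : l ≤ m + 1 then (ident' m l h).choose else fun _ => 0

/-- cofactor polynomials -/
noncomputable def pB (m l : ℕ) : ℂ × ℂ × ℂ → ℂ :=
  if h : l ≤ m + 1 then (ident' m l h).choose_spec.choose else fun _ => 0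

theorem pA_diff (m l : ℕ) : Differentiable ℂ (pA m l) := by
  unfold pA
  split_ifs with h
  · exact (ident' m l h).choose_spec.choose_spec.1
  · exact differentiable_const 0

theorem pB_diff (m l : ℕ) : Differentiable ℂ (pB m l) := by
  unfold pB
  split_ifs with h
  · exact (ident' m l h).choose_spec.choose_spec.2.1
  · exact differentiable_const 0

theorem pAB (m l : ℕ) (h : l ≤ m + 1) (x y e : ℂ) :
    sf l x e * sf (m + 1 - l) y e * sf m (x + y - ((m + 1 : ℕ) : ℂ) * e) e =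
        sf (m + 1) x e * pA m l (x, y, e) + sf (m + 1) y e * pB m l (x, y, e) := by
  unfold pA pB
  rw [dif_pos h, dif_pos h]
  exact (ident' m l h).choose_spec.choose_spec.2.2 x y e

/-- the grid polynomial -/
noncomputable def pP (m l : ℕ) : ℂ × ℂ × ℂ → ℂ :=
  fun w => sf l w.1 w.2.2 * sf (m + 1 - l) w.2.1 w.2.2

theorem pP_diff (m l : ℕ) : Differentiable ℂ (pP m l) := by
  unfold pP
  exact (sf_diff l (by fun_prop) (by fun_prop)).mul (sf_diff _ (by fun_prop) (by fun_prop))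

theorem exists_K (m : ℕ) : ∃ K : ℝ, 1 ≤ K ∧ ∀ l ≤ m + 1, ∀ w : ℂ × ℂ × ℂ, ‖w‖ ≤ 2 →
    ‖pP m l w‖ ≤ K ∧ ‖pA m l w‖ ≤ K ∧ ‖pB m l w‖ ≤ K := by
  have h1 : ∀ f : ℂ × ℂ × ℂ → ℂ, Differentiable ℂ f → ∃ K : ℝ, ∀ w : ℂ × ℂ × ℂ, ‖w‖ ≤ 2 →
      ‖f w‖ ≤ K := by
    intro f hf
    obtain ⟨K, hK⟩ := (isCompact_closedBall (0 : ℂ × ℂ × ℂ) 2).exists_bound_of_continuousOn
      hf.continuous.continuousOn
    exact ⟨K, fun w hw => hK w (mem_closedBall_zero_iff.2 hw)⟩
  choose K1 hK1 using fun l => h1 (pP m l) (pP_diff m l)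
  choose K2 hK2 using fun l => h1 (pA m l) (pA_diff m l)
  choose K3 hK3 using fun l => h1 (pB m l) (pB_diff m l)
  refine ⟨1 + ∑ l ∈ Finset.range (m + 2), (|K1 l| + |K2 l| + |K3 l|), ?_, ?_⟩
  · have : 0 ≤ ∑ l ∈ Finset.range (m + 2), (|K1 l| + |K2 l| + |K3 l|) :=
      Finset.sum_nonneg fun l _ => by positivity
    linarith
  · intro l hl w hw
    have h2 : |K1 l| + |K2 l| + |K3 l| ≤ ∑ l ∈ Finset.range (m + 2), (|K1 l| + |K2 l| + |K3 l|) :=
      Finset.single_le_sum (f := fun l => |K1 l| + |K2 l| + |K3 l|) (fun l _ => by positivity)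
        (Finset.mem_range.2 (by omega))
    have h3 := (hK1 l w hw).trans (le_abs_self _)
    have h4 := (hK2 l w hw).trans (le_abs_self _)
    have h5 := (hK3 l w hw).trans (le_abs_self _)
    have h6 := abs_nonneg (K1 l)
    have h7 := abs_nonneg (K2 l)
    have h8 := abs_nonneg (K3 l)
    refine ⟨by linarith, by linarith, by linarith⟩

/-- bound for the polynomials -/
noncomputable def KK (m : ℕ) : ℝ := (exists_K m).choose

theorem KK_ge (m : ℕ) : 1 ≤ KK m := (exists_K m).choose_spec.1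

/-- bound for the cofactors -/
noncomputable def Kc (m : ℕ) : ℝ := (1 / (dd m / 2)) ^ (m + 1)

theorem Kc_ge (m : ℕ) : 1 ≤ Kc m := by
  unfold Kc
  refine one_le_pow₀ ?_
  have h1 := dd_pos m
  have h2 := dd_le m
  rw [le_div_iff₀ (by positivity)]
  linarith

/-- total bound -/
noncomputable def DD (m : ℕ) : ℝ := Kc m * Kc m * KK m

theorem DD_ge (m : ℕ) : 1 ≤ DD m := by
  have h1 := Kc_ge m
  have h2 := KK_ge m
  unfold DD
  have h3 : 1 ≤ Kc m * Kc m := by nlinarith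
  nlinarith

variable {e : ℕ → ℝ}

theorem ip_le {B : ℕ → ℂ × ℂ → ℂ} (h : Fam B) {z : ℂ × ℂ} (hz : z ∈ ball (0 : ℂ × ℂ) 1) :
    ‖ip fun j => B j z‖ ≤ 1 := norm_ip_le (fun j => h.le j z hz) (h.sum hz)

theorem C1_le (he : Mesh e) (m : ℕ) {z : ℂ × ℂ} (hz : z ∈ ball (0 : ℂ × ℂ) 1) :
    ‖C1 e m z‖ ≤ Kc m := by
  unfold C1 Kc
  rw [norm_mul]
  have h1 := un_le (α := al e m) (c := -1) (n := m + 1) (δ := dd m / 2) (by simp)
    (by have := dd_pos m; positivity) (fun i hi => ⟨(al_mem he hi).1, (al_mem he hi).2.1⟩)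
    ((lam_le m z).trans_lt (mem_ball_zero_iff.1 hz))
  have h2 := ip_le ((fam1 he).rem m) hz
  calc _ ≤ (1 / (dd m / 2)) ^ (m + 1) * 1 := by
        gcongr
        have := dd_pos m
        positivity
    _ = _ := mul_one _

theorem C2_le (he : Mesh e) (m : ℕ) {z : ℂ × ℂ} (hz : z ∈ ball (0 : ℂ × ℂ) 1) :
    ‖C2 e m z‖ ≤ Kc m := by
  unfold C2 Kc
  rw [norm_mul]
  have h1 := un_le (α := al e m) (c := -1) (n := m + 1) (δ := dd m / 2) (by simp)
    (by have := dd_pos m; positivity) (fun i hi => ⟨(al_mem he hi).1, (al_mem he hi).2.1⟩)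
    ((muu_le m z).trans_lt (mem_ball_zero_iff.1 hz))
  have h2 := ip_le ((fam2 he).rem m) hz
  calc _ ≤ (1 / (dd m / 2)) ^ (m + 1) * 1 := by
        gcongr
        have := dd_pos m
        positivity
    _ = _ := mul_one _

theorem C3_le (he : Mesh e) (m : ℕ) {z : ℂ × ℂ} (hz : z ∈ ball (0 : ℂ × ℂ) 1) :
    ‖C3 e m z‖ ≤ Kc m := by
  unfold C3 Kc
  rw [norm_mul]
  have hc : ‖-(2 * cc m : ℂ)⁻¹‖ ≤ 1 := by
    rw [norm_neg, norm_inv, norm_mul, Complex.norm_real, Real.norm_of_nonneg (cc_pos m).le]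
    have := cc_ge m
    have h2 : ‖(2 : ℂ)‖ = 2 := by simp
    rw [h2]
    exact inv_le_one_of_one_le₀ (by linarith)
  have hd := dd_pos m
  have hd1 := dd_le m
  have h1 := un_le (α := be e m) (n := m) (δ := dd m / 2) hc
    (by positivity) (fun i hi => ⟨(be_mem he hi).1, (be_mem he hi).2.1⟩)
    ((norm_fst_le z).trans_lt (mem_ball_zero_iff.1 hz))
  have h2 := ip_le ((fam3 he).rem m) hz
  have h3 : (1 : ℝ) ≤ 1 / (dd m / 2) := by
    rw [le_div_iff₀ (by positivity)]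
    linarith
  calc _ ≤ (1 / (dd m / 2)) ^ m * 1 := by
        gcongr
    _ ≤ (1 / (dd m / 2)) ^ (m + 1) := by
        rw [mul_one]
        exact pow_le_pow_right₀ h3 (Nat.le_succ m)

theorem C1_diff (he : Mesh e) (m : ℕ) : DifferentiableOn ℂ (C1 e m) (ball 0 1) := by
  unfold C1
  refine DifferentiableOn.mul ?_ ((fam1 he).rem m).ip_diff
  exact un_diff (fun i hi => ⟨(al_mem he hi).1, by
    have := (al_mem he hi).2.1
    have := dd_pos m
    linarith⟩) (lam_diff m).differentiableOn fun z hz =>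
      (lam_le m z).trans_lt (mem_ball_zero_iff.1 hz)

theorem C2_diff (he : Mesh e) (m : ℕ) : DifferentiableOn ℂ (C2 e m) (ball 0 1) := by
  unfold C2
  refine DifferentiableOn.mul ?_ ((fam2 he).rem m).ip_diff
  exact un_diff (fun i hi => ⟨(al_mem he hi).1, by
    have := (al_mem he hi).2.1
    have := dd_pos m
    linarith⟩) (muu_diff m).differentiableOn fun z hz =>
      (muu_le m z).trans_lt (mem_ball_zero_iff.1 hz)

theorem C3_diff (he : Mesh e) (m : ℕ) : DifferentiableOn ℂ (C3 e m) (ball 0 1) := by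
  unfold C3
  refine DifferentiableOn.mul ?_ ((fam3 he).rem m).ip_diff
  exact un_diff (fun i hi => ⟨(be_mem he hi).1, by
    have := (be_mem he hi).2.1
    have := dd_pos m
    linarith⟩) differentiable_fst.differentiableOn fun z hz =>
      (norm_fst_le _).trans_lt (mem_ball_zero_iff.1 hz)

/-- the argument of the polynomials -/
noncomputable def ag (e : ℕ → ℝ) (m : ℕ) (z : ℂ × ℂ) : ℂ × ℂ × ℂ := (xx m z, yy m z, (e m : ℂ))

theorem ag_diff (e : ℕ → ℝ) (m : ℕ) : Differentiable ℂ (ag e m) := by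
  unfold ag xx yy
  have h1 := lam_diff m
  have h2 := muu_diff m
  fun_prop

theorem ag_le (he : Mesh e) (m : ℕ) {z : ℂ × ℂ} (hz : z ∈ ball (0 : ℂ × ℂ) 1) :
    ‖ag e m z‖ ≤ 2 := by
  have h1 := (lam_le m z).trans (mem_ball_zero_iff.1 hz).le
  have h2 := (muu_le m z).trans (mem_ball_zero_iff.1 hz).le
  have h3 := dd_pos m
  have h4 := dd_le m
  have h5 : ‖(aa m : ℂ)‖ ≤ 1 := by
    rw [Complex.norm_real, Real.norm_of_nonneg (by unfold aa; linarith)]
    unfold aa; linarith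
  have h6 : ‖(e m : ℂ)‖ ≤ 2 := by
    rw [Complex.norm_real, Real.norm_of_nonneg (he m).1.le]
    have h7 := he.small m
    have h8 := (he m).1
    have h9 : (0 : ℝ) ≤ m := Nat.cast_nonneg m
    nlinarith
  unfold ag
  rw [Prod.norm_def, Prod.norm_def]
  refine max_le ?_ (max_le ?_ h6)
  · unfold xx
    calc _ ≤ ‖lam m z‖ + ‖(aa m : ℂ)‖ := norm_sub_le _ _
      _ ≤ 2 := by linarith
  · unfold yy
    calc _ ≤ ‖muu m z‖ + ‖(aa m : ℂ)‖ := norm_sub_le _ _
      _ ≤ 2 := by linarith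

/-- special elements -/
noncomputable def hh (e : ℕ → ℝ) (m l : ℕ) (z : ℂ × ℂ) : ℂ :=
  C1 e m z * C2 e m z * pP m l (ag e m z)

/-- coefficients -/
noncomputable def ra (e : ℕ → ℝ) (m l : ℕ) (z : ℂ × ℂ) : ℂ :=
  C2 e m z * C3 e m z * pA m l (ag e m z)

/-- coefficients -/
noncomputable def rb (e : ℕ → ℝ) (m l : ℕ) (z : ℂ × ℂ) : ℂ :=
  C1 e m z * C3 e m z * pB m l (ag e m z)

theorem rel (he : Mesh e) {m l : ℕ} (hl : l ≤ m + 1) {z : ℂ × ℂ} (hz : z ∈ ball (0 : ℂ × ℂ) 1) :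
    hh e m l z * f3 e z = f1 e z * ra e m l z + f2 e z * rb e m l z := by
  rw [f1_eq he m hz, f2_eq he m hz, f3_eq he m hz]
  have h := pAB m l hl (xx m z) (yy m z) (e m)
  unfold hh ra rb pP ag
  simp only
  linear_combination (C1 e m z * C2 e m z * C3 e m z) * h

theorem hh_diff (he : Mesh e) (m l : ℕ) : DifferentiableOn ℂ (hh e m l) (ball 0 1) :=
  ((C1_diff he m).mul (C2_diff he m)).mul ((pP_diff m l).comp (ag_diff e m)).differentiableOn

theorem ra_diff (he : Mesh e) (m l : ℕ) : DifferentiableOn ℂ (ra e m l) (ball 0 1) :=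
  ((C2_diff he m).mul (C3_diff he m)).mul ((pA_diff m l).comp (ag_diff e m)).differentiableOn

theorem rb_diff (he : Mesh e) (m l : ℕ) : DifferentiableOn ℂ (rb e m l) (ball 0 1) :=
  ((C1_diff he m).mul (C3_diff he m)).mul ((pB_diff m l).comp (ag_diff e m)).differentiableOn

theorem three_le {a b c : ℂ} {m : ℕ} (ha : ‖a‖ ≤ Kc m) (hb : ‖b‖ ≤ Kc m) (hc : ‖c‖ ≤ KK m) :
    ‖a * b * c‖ ≤ DD m := by
  have h1 := Kc_ge m
  have h2 := KK_ge m
  rw [norm_mul, norm_mul]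
  unfold DD
  gcongr

theorem hh_le (he : Mesh e) {m l : ℕ} (hl : l ≤ m + 1) {z : ℂ × ℂ}
    (hz : z ∈ ball (0 : ℂ × ℂ) 1) : ‖hh e m l z‖ ≤ DD m :=
  three_le (C1_le he m hz) (C2_le he m hz) ((exists_K m).choose_spec.2 l hl _ (ag_le he m hz)).1

theorem ra_le (he : Mesh e) {m l : ℕ} (hl : l ≤ m + 1) {z : ℂ × ℂ}
    (hz : z ∈ ball (0 : ℂ × ℂ) 1) : ‖ra e m l z‖ ≤ DD m :=
  three_le (C2_le he m hz) (C3_le he m hz) ((exists_K m).choose_spec.2 l hl _ (ag_le he m hz)).2.1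

theorem rb_le (he : Mesh e) {m l : ℕ} (hl : l ≤ m + 1) {z : ℂ × ℂ}
    (hz : z ∈ ball (0 : ℂ × ℂ) 1) : ‖rb e m l z‖ ≤ DD m :=
  three_le (C1_le he m hz) (C3_le he m hz) ((exists_K m).choose_spec.2 l hl _ (ag_le he m hz)).2.2

/-- weights -/
noncomputable def de (m : ℕ) : ℝ := (1 / 2) ^ m / DD m

theorem de_pos (m : ℕ) : 0 < de m := by
  have := DD_ge m
  unfold de
  positivity

/-- series with the weights -/
noncomputable def ser (f : ℕ → ℂ × ℂ → ℂ) (z : ℂ × ℂ) : ℂ := ∑' m, (de m : ℂ) * f m z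

theorem term_le {f : ℕ → ℂ × ℂ → ℂ} (hf : ∀ m, ∀ z ∈ ball (0 : ℂ × ℂ) 1, ‖f m z‖ ≤ DD m) (m : ℕ)
    {z : ℂ × ℂ} (hz : z ∈ ball (0 : ℂ × ℂ) 1) : ‖(de m : ℂ) * f m z‖ ≤ (1 / 2) ^ m := by
  have h1 := DD_ge m
  rw [norm_mul, Complex.norm_real, Real.norm_of_nonneg (de_pos m).le]
  calc de m * ‖f m z‖ ≤ de m * DD m := by
        gcongr
        · exact (de_pos m).le
        · exact hf m z hz
    _ = (1 / 2) ^ m := by
        unfold de
        rw [div_mul_cancel₀]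
        linarith

theorem ser_summable {f : ℕ → ℂ × ℂ → ℂ} (hf : ∀ m, ∀ z ∈ ball (0 : ℂ × ℂ) 1, ‖f m z‖ ≤ DD m)
    {z : ℂ × ℂ} (hz : z ∈ ball (0 : ℂ × ℂ) 1) : Summable fun m => (de m : ℂ) * f m z :=
  Summable.of_norm_bounded summable_geometric_two fun m => term_le hf m hz

theorem ser_le {f : ℕ → ℂ × ℂ → ℂ} (hf : ∀ m, ∀ z ∈ ball (0 : ℂ × ℂ) 1, ‖f m z‖ ≤ DD m)
    {z : ℂ × ℂ} (hz : z ∈ ball (0 : ℂ × ℂ) 1) : ‖ser f z‖ ≤ 2 := by
  unfold ser
  have := tsum_of_norm_bounded hasSum_geometric_two fun m => term_le hf m hz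
  exact this

theorem ser_diff {f : ℕ → ℂ × ℂ → ℂ} (hd : ∀ m, DifferentiableOn ℂ (f m) (ball 0 1))
    (hf : ∀ m, ∀ z ∈ ball (0 : ℂ × ℂ) 1, ‖f m z‖ ≤ DD m) :
    DifferentiableOn ℂ (ser f) (ball 0 1) :=
  diffOn_tsum isOpen_ball (fun m => (hd m).const_mul _) summable_geometric_two
    fun m _ hz => term_le hf m hz

theorem ser_rel (he : Mesh e) {L : ℕ → ℕ} (hL : ∀ m, L m ≤ m + 1) {z : ℂ × ℂ}
    (hz : z ∈ ball (0 : ℂ × ℂ) 1) :
    ser (fun m => hh e m (L m)) z * f3 e z =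
      f1 e z * ser (fun m => ra e m (L m)) z + f2 e z * ser (fun m => rb e m (L m)) z := by
  have s1 := ser_summable (fun m z hz => hh_le he (hL m) hz) hz
  have s2 := ser_summable (fun m z hz => ra_le he (hL m) hz) hz
  have s3 := ser_summable (fun m z hz => rb_le he (hL m) hz) hz
  unfold ser
  rw [← tsum_mul_right, ← tsum_mul_left, ← tsum_mul_left,
    ← (s2.mul_left (f1 e z)).tsum_add (s3.mul_left (f2 e z))]
  refine tsum_congr fun m => ?_
  linear_combination (de m : ℂ) * rel he (hL m) hz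

/-- values at the next antidiagonal -/
theorem ser_cp (he : Mesh e) {L : ℕ → ℕ} {m l k : ℕ} (h : l + k = m + 1) :
    ser (fun m => hh e m (L m)) (cp e m l k) = (de m : ℂ) * hh e m (L m) (cp e m l k) := by
  unfold ser
  refine tsum_eq_single m fun m' hne => ?_
  have h0 : C1 e m' (cp e m l k) * C2 e m' (cp e m l k) = 0 := by
    by_cases hl : l < m + 1
    · rw [C1_zero he hne.symm h.le hl, zero_mul]
    · rw [C2_zero he hne.symm h.le (by omega), mul_zero]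
  change (de m' : ℂ) * (C1 e m' (cp e m l k) * C2 e m' (cp e m l k) *
    pP m' (L m') (ag e m' (cp e m l k))) = 0
  rw [h0, zero_mul, mul_zero]

theorem hh_cp_ne (e : ℕ → ℝ) {m l k L : ℕ} (h : l + k = m + 1) (hne : l ≠ L) :
    hh e m L (cp e m l k) = 0 := by
  unfold hh pP ag
  simp only
  rw [xx_cp, yy_cp]
  rcases lt_or_gt_of_ne hne with h1 | h1
  · rw [sf_eval_zero h1]; ring
  · rw [sf_eval_zero (a := m + 1 - L) (by omega)]; ring

theorem hh_cp_self (he : Mesh e) {m l k : ℕ} (h : l + k = m + 1) :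
    9 / 16 * e m ^ (m + 1) ≤ ‖hh e m l (cp e m l k)‖ := by
  obtain rfl : k = m + 1 - l := by omega
  have hl : l ≤ m + 1 := by omega
  have h1 := C1_ge he h.le
  have h2 := C2_ge he h.le
  have he0 := (he m).1
  unfold hh pP ag
  simp only
  rw [xx_cp, yy_cp, sf_eval_self, sf_eval_self, norm_mul, norm_mul, norm_mul, norm_mul, norm_mul,
    norm_pow, norm_pow, Complex.norm_real, Real.norm_of_nonneg he0.le, Complex.norm_natCast,
    Complex.norm_natCast]
  have h3 : (1 : ℝ) ≤ (l.factorial : ℝ) := by exact_mod_cast Nat.succ_le_of_lt l.factorial_pos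
  have h4 : (1 : ℝ) ≤ ((m + 1 - l).factorial : ℝ) := by
    exact_mod_cast Nat.succ_le_of_lt (m + 1 - l).factorial_pos
  have h5 : e m ^ (m + 1) = e m ^ l * e m ^ (m + 1 - l) := by
    rw [← pow_add]; congr 1; omega
  rw [h5]
  calc 9 / 16 * (e m ^ l * e m ^ (m + 1 - l)) =
      3 / 4 * (3 / 4) * ((1 * e m ^ l) * (1 * e m ^ (m + 1 - l))) := by ring
    _ ≤ _ := by gcongr

end Pool.Agent.X190.Hinf
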